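import Mathlib

/-!
# The fourth moment of the class group `L`-functions of the CM quadratic extensions of a totally real
field: the statement
-/

set_option autoImplicit false

open NumberField
open scoped nonZeroDivisors

namespace Pool.Agent.H65.CM4

/-- the class group characters of the number field `K` -/
abbrev ClChar (K : Type) [Field K] [NumberField K] : Type := ClassGroup (𝓞 K) →* ℂˣ

noncomputable instance (K : Type) [Field K] [NumberField K] : Fintype (ClChar K) :=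
  Fintype.ofFinite _

/-- `L` is the `L`-function of the class group character `ψ`: holomorphic away from `1`, and the sum
of the Dirichlet series `∑_I ψ([I]) N(I)^(-s)` over the nonzero integral ideals for `Re s > 1` -/
def IsLFunction (K : Type) [Field K] [NumberField K] (ψ : ClChar K) (L : ℂ → ℂ) : Prop :=
  DifferentiableOn ℂ L {1}ᶜ ∧ ∀ s : ℂ, 1 < s.re →
    HasSum (fun I : (Ideal (𝓞 K))⁰ => ((ψ (ClassGroup.mk0 I) : ℂˣ) : ℂ) *
      (Ideal.absNorm (I : Ideal (𝓞 K)) : ℂ) ^ (-s)) (L s)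

/-- the `K i`, `i ∈ S`, are pairwise non-isomorphic totally complex quadratic extensions of the field
`k`, of absolute discriminant at most `X`, and the `L i ψ` are the `L`-functions of the characters of
their class groups -/
structure Family (k : Type) [Field k] (X : ℝ) {ι : Type} (S : Finset ι) (K : ι → Type)
    [∀ i, Field (K i)] [∀ i, NumberField (K i)] [∀ i, Algebra k (K i)]
    (L : ∀ i, ClChar (K i) → ℂ → ℂ) : Prop where
  quadratic : ∀ i ∈ S, Module.finrank k (K i) = 2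
  complex : ∀ i ∈ S, IsTotallyComplex (K i)
  discr_le : ∀ i ∈ S, |(discr (K i) : ℝ)| ≤ X
  distinct : ∀ i ∈ S, ∀ j ∈ S, i ≠ j → IsEmpty (K i ≃ₐ[k] K j)
  isL : ∀ i ∈ S, ∀ ψ, IsLFunction (K i) ψ (L i ψ)

/-- the final theorem -/
def T_FIN : Prop :=
  (∀ (K : Type) [Field K] [NumberField K] (ψ : ClChar K), IsTotallyComplex K →
    ∃ L : ℂ → ℂ, IsLFunction K ψ L) ∧
  ∀ (k : Type) [Field k] [NumberField k] [IsTotallyReal k] (ε : ℝ), 0 < ε →
    ∃ (C : ℝ) (A : ℕ), ∀ (X : ℝ) (ι : Type) (S : Finset ι) (K : ι → Type) [∀ i, Field (K i)]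
      [∀ i, NumberField (K i)] [∀ i, Algebra k (K i)] (L : ∀ i, ClChar (K i) → ℂ → ℂ),
      1 ≤ X → Family k X S K L →
      (∀ t : ∀ i, ClChar (K i) → ℝ,
        ∑ i ∈ S, ∑ ψ : ClChar (K i), (‖L i ψ (1 / 2 + t i ψ * Complex.I)‖ / (1 + |t i ψ|) ^ A) ^ 4 ≤
          C * X ^ (3 / 2 + ε)) ∧
      (∀ (η : ℝ) (T : Finset (Σ i, ClChar (K i))), 0 ≤ η → η ≤ 3 / 8 →
        (∀ p ∈ T, p.1 ∈ S ∧ ∃ t : ℝ, (1 + |t|) ^ A * |(discr (K p.1) : ℝ)| ^ η <
          ‖L p.1 p.2 (1 / 2 + t * Complex.I)‖) →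
        (T.card : ℝ) ≤ C * X ^ (3 / 2 - 4 * η + ε)) ∧
      ∀ η : ℝ, 0 ≤ η → η ≤ 1 / 4 →
        (∀ i ∈ S, ∃ (ψ : ClChar (K i)) (t : ℝ), (1 + |t|) ^ A * |(discr (K i) : ℝ)| ^ (1 / 8 + η) <
          ‖L i ψ (1 / 2 + t * Complex.I)‖) →
        (S.card : ℝ) ≤ C * X ^ (1 - 4 * η + ε)

end Pool.Agent.H65.CM4
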