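import Pool.Agent.H65.CM4.Defs

/-!
# Targets of the part A: the large sieve inequality over binary quadratic forms over `k`
-/

set_option autoImplicit false

open MeasureTheory Set Filter NumberField NumberField.InfinitePlace
open scoped Real

namespace Pool.Agent.H65.CM4

section

variable {k : Type} [Field k] [NumberField k] [IsTotallyReal k]

/-! ### Definitions of the part -/

/-- the absolute value of the norm -/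
noncomputable def Nr (x : k) : ℝ := ∏ v : Pl k, |rv v x|

/-- the number `x` is an algebraic integer -/
def Int' (x : k) : Prop := ∃ y : 𝓞 k, (y : k) = x

/-- the denominator of a number -/
def den (x : k) : Ideal (𝓞 k) where
  carrier := {a | Int' ((a : k) * x)}
  zero_mem' := ⟨0, by simp⟩
  add_mem' := by
    rintro a b ⟨y, hy⟩ ⟨z, hz⟩
    refine ⟨y + z, ?_⟩
    have h : ((a + b : 𝓞 k) : k) = (a : k) + b := rfl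
    rw [h, add_mul, ← hy, ← hz]; rfl
  smul_mem' := by
    rintro c a ⟨y, hy⟩
    refine ⟨c * y, ?_⟩
    have h : ((c • a : 𝓞 k) : k) = (c : k) * a := rfl
    rw [h, mul_assoc, ← hy]; rfl

variable (k) in
/-- choices: representatives `W` of the lines of `k ^ 2`, almost primitive, and representatives `U`
of `k` modulo the integers -/
structure Ch where
  W : Set (V2 k)
  C0 : ℕ
  U : Set k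
  pos : 0 < C0
  ne : ∀ w ∈ W, w ≠ 0
  cont : ∀ w ∈ W, Ideal.absNorm (Ideal.span {w.1, w.2} : Ideal (𝓞 k)) ≤ C0
  uniq : ∀ u : V2 k, u ≠ 0 → ∃! w : V2 k, w ∈ W ∧ det u w = 0
  ru : ∀ x : k, ∃! a : k, a ∈ U ∧ Int' (x - a)

/-- the admissible numbers `b` -/
def Adm (R : Ch k) (b : ℕ) : Prop := 0 < b ∧ dk k * R.C0.factorial ∣ b

open Classical in
variable (k) in
/-- the nonzero ideals of norm up to `A` -/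
noncomputable def Id (A : ℝ) : Finset (Ideal (𝓞 k)) :=
  if h : {I : Ideal (𝓞 k) | I ≠ ⊥ ∧ nm I ≤ A}.Finite then h.toFinset else ∅

/-- the additive characters of the forms -/
noncomputable def ee (Q : QF k) (ξ : RF k) : ℂ :=
  Complex.exp (2 * π * ((∑ v : Pl k, (rv v (Q.1 : k) * (ξ v).1 + rv v (Q.2.1 : k) * (ξ v).2.1 +
    rv v (Q.2.2 : k) * (ξ v).2.2) : ℝ) : ℂ) * Complex.I)

/-- the Gaussian weight of the forms near `P` -/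
noncomputable def ga (W r : ℝ) (P : RF k) (Q : QF k) : ℝ :=
  Real.exp (-(π * dq r P (rl Q) / W ^ 2))

/-- the dual metric at a place -/
noncomputable def dz1 (r : ℝ) (E : ℝ × ℝ × ℝ) : ℝ := (E.1 / r) ^ 2 + E.2.1 ^ 2 + (r * E.2.2) ^ 2

/-- the dual metric -/
noncomputable def dz (r : ℝ) (E : RF k) : ℝ := ∑ v : Pl k, dz1 r (E v)

/-- the tensor square of a vector, integral -/
def sqo (w : V2 k) : QF k := (w.1 ^ 2, w.1 * w.2, w.2 ^ 2)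

/-- the tensor square of a vector, times a number -/
noncomputable def sq2 (a : k) (w : V2 k) : RF k := fun v =>
  (rv v a * rv v (w.1 : k) ^ 2, rv v a * (rv v (w.1 : k) * rv v (w.2 : k)),
    rv v a * rv v (w.2 : k) ^ 2)

/-- a dual point -/
noncomputable def dp (Z : QF k) : RF k := fun v => ((dk k : ℝ)⁻¹) • rl Z v

/-- the dual Gaussian sum -/
noncomputable def ps (W r : ℝ) (ξ : RF k) : ℝ :=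
  ∑' Z : QF k, Real.exp (-(π * W ^ 2 * dz r (dp Z + ξ)))

/-- the number of dual points near `- ξ` -/
noncomputable def nz (r η : ℝ) (ξ : RF k) : ℕ := Nat.card {Z : QF k // dz r (dp Z + ξ) ≤ η ^ 2}

/-- the bilinear form of `Z` at the vectors orthogonal to `v` and `w` -/
def hb (Z : QF k) (v w : V2 k) : 𝓞 k :=
  Z.1 * (v.2 * w.2) - Z.2.1 * (v.1 * w.2 + v.2 * w.1) + Z.2.2 * (v.1 * w.1)

variable (k) in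
/-- the indices `((w, (f, g)), a)` of the frequencies -/
abbrev Ix : Type := V2 k × (Ideal (𝓞 k) × ℕ) × k

/-- the valid indices -/
structure Iv (R : Ch k) (C₁ r A : ℝ) (x : Ix k) : Prop where
  wm : x.1 ∈ R.W
  f : x.2.1.1 ≠ ⊥
  g : x.2.1.2 < Ideal.absNorm x.2.1.1 ^ 2
  u : x.2.2 ∈ R.U
  sh : nm x.2.1.1 * nn r x.1 ≤ C₁ * nm (den x.2.2)
  le : nm x.2.1.1 * nm (den x.2.2) ≤ A

/-- the frequency of an index -/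
noncomputable def lam (μ : Ideal (𝓞 k) × ℕ → RF k) (x : Ix k) : RF k := μ x.2.1 + sq2 x.2.2 x.1

/-- the block of an index -/
noncomputable def blk (x : Ix k) : V2 k × Ideal (𝓞 k) × ℕ :=
  (x.1, x.2.1.1, Nat.log 2 (Ideal.absNorm (den x.2.2)))

/-- the weight of a dyadic block, `η` is the product of the sizes at the places -/
noncomputable def hw (r η : ℝ) (a : V2 k × Ideal (𝓞 k) × ℕ) : ℝ :=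
  (1 + η * 4 ^ a.2.2 / nn r a.1) / 2 ^ a.2.2

/-- the shape of a lattice: its shortest vector is `x • w`, `f` the ideal of the primes `P` for which
it vanishes modulo `P` -/
structure Sh (R : Ch k) (C₁ r : ℝ) (I : Ideal (𝓞 k)) (L : La k) (f m : Ideal (𝓞 k)) (L' : La k)
    (w : V2 k) : Prop where
  mul : I = f * m
  mem : L' ∈ Ls f
  inf : L = L' ⊓ Lw m w
  wm : w ∈ R.W
  mnb : nm f ^ 2 * nn r w ≤ C₁ * mn r L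
  sh : nm f * nn r w ≤ C₁ * nm m

open Classical in
/-- the fractions with the denominator `I` -/
noncomputable def Rp (R : Ch k) (I : Ideal (𝓞 k)) : Finset k :=
  if h : {a : k | a ∈ R.U ∧ den a = I}.Finite then h.toFinset else ∅

/-- the majorant of the part of a vector `w` -/
noncomputable def Tw (b : ℕ) (A : ℝ) (w : V2 k) (Q : QF k) : ℝ :=
  ∑ f ∈ Sq b A, ∑ m ∈ Sq b A, (1 / (nm f ^ 2 * nm m)) * (∑ L ∈ Ls f, |Rn f L Q|) *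
    |Rn m (Lw m w) Q|

end

section

variable (k : Type) [Field k] [NumberField k] [IsTotallyReal k]

/-! ### Number fields -/

/-- (EMB) norms and traces. -/
def T_EMB : Prop :=
  Fintype.card (Pl k) = dg k ∧ 0 < dg k ∧ 0 < dk k ∧
  (∀ x : k, Nr x = |((Algebra.norm ℚ x : ℚ) : ℝ)|) ∧
  (∀ x : k, ∑ v : Pl k, rv v x = ((Algebra.trace ℚ k x : ℚ) : ℝ)) ∧
  (∀ x y : k, Nr (x * y) = Nr x * Nr y) ∧ (∀ x : k, 0 ≤ Nr x ∧ (Nr x = 0 ↔ x = 0)) ∧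
  (∀ u : (𝓞 k)ˣ, Nr ((u : 𝓞 k) : k) = 1) ∧
  (∀ x : 𝓞 k, nm (Ideal.span {x}) = Nr (x : k)) ∧
  (∀ x : 𝓞 k, x ≠ 0 → 1 ≤ Nr (x : k)) ∧
  (∀ I : Ideal (𝓞 k), I ≠ ⊥ → 1 ≤ nm I ∧ ∀ x ∈ I, x ≠ 0 → nm I ≤ Nr (x : k)) ∧
  (∀ x y : k, den x ≠ ⊥ ∧ nm (den (x - y)) ≤ nm (den x) * nm (den y) ∧
    (x ≠ 0 → 1 ≤ Nr x * nm (den x)))

/-- (BAL) balancing with units. -/
def T_BAL : Prop :=
  ∃ C : ℝ, 1 ≤ C ∧ ∀ g : Pl k → ℝ, (∀ v, 0 < g v) → ∃ u : (𝓞 k)ˣ, ∀ v : Pl k,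
    (∏ v' : Pl k, g v') ^ (1 / (dg k : ℝ)) / C ≤ |rv v ((u : 𝓞 k) : k)| * g v ∧
      |rv v ((u : 𝓞 k) : k)| * g v ≤ C * (∏ v' : Pl k, g v') ^ (1 / (dg k : ℝ))

/-- (BXC) the number of points in a box. -/
def T_BXC : Prop :=
  ∃ C : ℝ, 1 ≤ C ∧ ∀ (m : ℝ) (g : Pl k → ℝ) (F : Finset k), 0 < m → (∀ v, 0 ≤ g v) →
    (∀ x ∈ F, ∀ y ∈ F, x ≠ y → m ≤ Nr (x - y) ∧ ∀ v, |rv v (x - y)| ≤ g v) →
    (F.card : ℝ) ≤ C * (1 + (∏ v : Pl k, g v) / m)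

/-- (LOW) the integers in a cube, and the covering radius. -/
def T_LOW : Prop :=
  ∃ c C : ℝ, 0 < c ∧ 1 ≤ C ∧ (∀ p : Pl k → ℝ, ∃ x : 𝓞 k, ∀ v, |rv v (x : k) - p v| ≤ C) ∧
    ∀ X : ℝ, 0 ≤ X → ∃ F : Finset (𝓞 k), (∀ x ∈ F, ∀ v, |rv v (x : k)| ≤ X) ∧
      1 ≤ F.card ∧ c * X ^ dg k ≤ F.card

/-- (MKI) Minkowski's theorem for ideals. -/
def T_MKI : Prop :=
  ∃ C : ℝ, 1 ≤ C ∧ ∀ I : Ideal (𝓞 k), I ≠ ⊥ → ∃ x ∈ I, x ≠ 0 ∧ Nr (x : k) ≤ C * nm I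

/-- (CHX) the choices exist. -/
def T_CHX : Prop := Nonempty (Ch k)

/-- (IDC) the number of ideals. -/
def T_IDC : Prop :=
  (∀ (A : ℝ) (I : Ideal (𝓞 k)), I ∈ Id k A ↔ I ≠ ⊥ ∧ nm I ≤ A) ∧
  (∀ (b : ℕ) (A : ℝ) (I : Ideal (𝓞 k)),
    I ∈ Sq b A ↔ I ≠ ⊥ ∧ Squarefree I ∧ I ⊔ Ideal.span {(b : 𝓞 k)} = ⊤ ∧ nm I ≤ A) ∧
  ∃ C : ℝ, 1 ≤ C ∧ ∀ A : ℝ, 1 ≤ A → ((Id k A).card : ℝ) ≤ C * A ∧
    ∑ I ∈ Id k A, 1 / nm I ≤ C * (1 + Real.log A)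

/-- (DVI) the number of the divisors of an ideal. -/
def T_DVI : Prop :=
  ∀ ε : ℝ, 0 < ε → ∃ C : ℝ, 1 ≤ C ∧ ∀ I : Ideal (𝓞 k), I ≠ ⊥ →
    {J : Ideal (𝓞 k) | J ∣ I}.Finite ∧ ({J : Ideal (𝓞 k) | J ∣ I}.ncard : ℝ) ≤ C * nm I ^ ε ∧
    (3 : ℝ) ^ (pf I).card ≤ C * nm I ^ ε

/-! ### Poisson summation -/

/-- (PN1) Gaussian sums over the integers of `k`. -/
def T_PN1 : Prop :=
  ∀ (W : ℝ) (p ξ : Pl k → ℝ), 0 < W →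
    Summable (fun a : 𝓞 k => Real.exp (-(π * (∑ v : Pl k, (rv v (a : k) - p v) ^ 2) / W ^ 2))) ∧
    Summable (fun z : 𝓞 k =>
      Real.exp (-(π * W ^ 2 * ∑ v : Pl k, (rv v (z : k) / dk k + ξ v) ^ 2))) ∧
    ‖∑' a : 𝓞 k, (Real.exp (-(π * (∑ v : Pl k, (rv v (a : k) - p v) ^ 2) / W ^ 2)) : ℂ) *
        Complex.exp (2 * π * ((∑ v : Pl k, rv v (a : k) * ξ v : ℝ) : ℂ) * Complex.I)‖ ≤
      W ^ dg k * ∑' z : 𝓞 k, Real.exp (-(π * W ^ 2 * ∑ v : Pl k, (rv v (z : k) / dk k + ξ v) ^ 2))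

/-- (PN3) Gaussian sums over the forms. -/
def T_PN3 : Prop :=
  ∀ (W r : ℝ) (P ξ : RF k), 0 < W → 0 < r →
    Summable (fun Q : QF k => ga W r P Q) ∧
    Summable (fun Z : QF k => Real.exp (-(π * W ^ 2 * dz r (dp Z + ξ)))) ∧
    ‖∑' Q : QF k, (ga W r P Q : ℂ) * ee Q ξ‖ ≤ W ^ (3 * dg k) * ps W r ξ

/-- (TAL) truncation of the dual sum. -/
def T_TAL : Prop :=
  ∃ C : ℝ, 0 ≤ C ∧ ∀ (W r η : ℝ) (ξ : RF k), 1 ≤ W → 1 ≤ r → 0 ≤ η →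
    {Z : QF k | dz r (dp Z + ξ) ≤ η ^ 2}.Finite ∧
    ps W r ξ ≤ nz r η ξ + C * r ^ dg k * Real.exp (-(π * W ^ 2 * η ^ 2 / 2))

/-! ### Counting -/

/-- (NRD) the determinant and the metrics. -/
def T_NRD : Prop :=
  ∀ (r : ℝ) (v w : V2 k), 0 < r →
    (∀ p : Pl k, rv p (det v w : k) ^ 2 ≤ nr r p v * nr r p w) ∧
    (v ≠ 0 → 0 < nn r v ∧ ∀ p : Pl k, 0 < nr r p v) ∧
    Nr (det v w : k) ≤ Real.sqrt (nn r v * nn r w) ∧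
    (∀ u : (𝓞 k)ˣ, nn r ((u : 𝓞 k) • v) = nn r v) ∧
    (∀ (E : ℝ × ℝ × ℝ) (p : Pl k) (η : ℝ), 0 ≤ η → dz1 r E ≤ η ^ 2 →
      |E.1 * (rv p (v.2 : k) * rv p (w.2 : k)) -
        E.2.1 * (rv p (v.1 : k) * rv p (w.2 : k) + rv p (v.2 : k) * rv p (w.1 : k)) +
        E.2.2 * (rv p (v.1 : k) * rv p (w.1 : k))| ≤
        2 * η * Real.sqrt (nr r p v * nr r p w))

/-- (CLS) the classes of the dual points on the plane of two vectors. -/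
def T_CLS : Prop :=
  ∀ C0 : ℕ, ∃ C : ℝ, 0 ≤ C ∧ ∀ (v w : V2 k) (h : 𝓞 k) (F : Finset (QF k)), det v w ≠ 0 →
    Ideal.absNorm (Ideal.span {v.1, v.2} : Ideal (𝓞 k)) ≤ C0 →
    Ideal.absNorm (Ideal.span {w.1, w.2} : Ideal (𝓞 k)) ≤ C0 →
    (∀ Z ∈ F, hb Z v w = h) →
    (∀ Z ∈ F, ∀ Z' ∈ F, ∀ c c' : 𝓞 k,
      Z - Z' = ((dk k : 𝓞 k) * c) • sqo v - ((dk k : 𝓞 k) * c') • sqo w → Z = Z') →
    (F.card : ℝ) ≤ C * Nr (det v w : k)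

/-- (CAB) the fractions for a given dual point. -/
def T_CAB : Prop :=
  ∃ C : ℝ, 0 ≤ C ∧ ∀ (r η A B : ℝ) (v w : V2 k) (ν : RF k) (F : Finset (k × k)), 0 < r → 0 < η →
    1 ≤ A → 1 ≤ B → det v w ≠ 0 →
    (∀ x ∈ F, nm (den x.1) ≤ A ∧ nm (den x.2) ≤ B ∧ dz r (ν + sq2 x.1 v - sq2 x.2 w) ≤ η ^ 2) →
    (F.card : ℝ) ≤
      (C + C * η ^ dg k * A ^ 2 * Real.sqrt (nn r w) / (Nr (det v w : k) * Real.sqrt (nn r v))) *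
        (1 + C * η ^ dg k * B ^ 2 / nn r w)

/-- (CNT) the number of coincidences for two vectors. -/
def T_CNT : Prop :=
  ∀ C0 : ℕ, ∃ C : ℝ, 0 ≤ C ∧ ∀ (r η Λ A B : ℝ) (v w : V2 k) (μ : RF k)
    (F : Finset (k × k × QF k)), 0 < r → 0 < η → 1 ≤ Λ → 1 ≤ A → 1 ≤ B →
    Ideal.absNorm (Ideal.span {v.1, v.2} : Ideal (𝓞 k)) ≤ C0 →
    Ideal.absNorm (Ideal.span {w.1, w.2} : Ideal (𝓞 k)) ≤ C0 → det v w ≠ 0 →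
    η ^ dg k * nn r v ≤ Λ → η ^ dg k * nn r w ≤ Λ →
    (∀ x ∈ F, ∀ y ∈ F, Int' (x.1 - y.1) → Int' (x.2.1 - y.2.1) → x.1 = y.1 ∧ x.2.1 = y.2.1) →
    (∀ x ∈ F, nm (den x.1) ≤ A ∧ nm (den x.2.1) ≤ B ∧
      dz r (dp x.2.2 + μ + sq2 x.1 v - sq2 x.2.1 w) ≤ η ^ 2) →
    (F.card : ℝ) ≤ C * Λ * Real.sqrt (nn r v * nn r w) *
      (1 + η ^ dg k * A ^ 2 / nn r v) * (1 + η ^ dg k * B ^ 2 / nn r w)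

/-- (NW) the number of lines. -/
def T_NW : Prop :=
  ∃ C : ℝ, 1 ≤ C ∧ ∀ (R : Ch k) (r X : ℝ) (F : Finset (V2 k)), 1 ≤ r → 0 ≤ X →
    (∀ w ∈ F, w ∈ R.W ∧ w.2 ≠ 0 ∧ nn r w ≤ X) →
    (F.card : ℝ) ≤ C * X ∧ ∀ w ∈ F, r ^ dg k ≤ nn r w

/-- (WSM) the sum of the inverse norms. -/
def T_WSM : Prop :=
  ∃ C : ℝ, 1 ≤ C ∧ ∀ (R : Ch k) (r X : ℝ) (F : Finset (V2 k)), 1 ≤ r → 1 ≤ X →
    (∀ w ∈ F, w ∈ R.W ∧ w.2 ≠ 0 ∧ nn r w ≤ X) → ∑ w ∈ F, 1 / nn r w ≤ C * (1 + Real.log X)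

/-- (W10) the line of the vector `(1, 0)`. -/
def T_W10 : Prop :=
  ∀ (R : Ch k) (r : ℝ) (w : V2 k), 0 < r → w ∈ R.W → w.2 = 0 →
    (∀ w' ∈ R.W, w'.2 = 0 → w' = w) ∧ 1 / r ^ dg k ≤ nn r w ∧
    nn r w ≤ (R.C0 : ℝ) ^ 2 / r ^ dg k

/-- (NI) the number of indices. -/
def T_NI : Prop :=
  ∀ (R : Ch k) (C₁ : ℝ), 1 ≤ C₁ → ∃ C : ℝ, 1 ≤ C ∧ ∀ (r A : ℝ) (I : Finset (Ix k)),
    1 ≤ r → 1 ≤ A → (∀ x ∈ I, Iv R C₁ r A x) → (I.card : ℝ) ≤ C * A ^ 7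

open Classical in
/-- (GRP) grouping in blocks. -/
def T_GRP : Prop :=
  ∀ (R : Ch k) (C₁ : ℝ), 1 ≤ C₁ → ∃ C : ℝ, 0 ≤ C ∧ ∀ (r η Λ A M : ℝ) (I : Finset (Ix k))
    (c : Ix k → ℝ) (μ : Ideal (𝓞 k) × ℕ → RF k),
    1 ≤ r → 0 < η → 1 ≤ Λ → 1 ≤ A → 0 ≤ M → (∀ x ∈ I, Iv R C₁ r A x) →
    (∀ x ∈ I, η ^ dg k * nn r x.1 ≤ Λ) → (∀ x ∈ I, 0 ≤ c x) →
    (∀ x ∈ I, c x ^ 2 * nm x.2.1.1 ^ 4 * nm (den x.2.2) ^ 2 * nn r x.1 ≤ M) →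
    ∑ x ∈ I, ∑ y ∈ I.filter (fun y => y.1 ≠ x.1), c x * c y * nz r η (lam μ x - lam μ y) ≤
      C * Λ * M * ∑ a ∈ I.image blk, ∑ a' ∈ (I.image blk).filter (fun a' => a'.1 ≠ a.1),
        hw r (η ^ dg k) a * hw r (η ^ dg k) a'

/-- (HG) the sum of the weights of the blocks, general vectors. -/
def T_HG : Prop :=
  ∀ (R : Ch k) (C₁ : ℝ), 1 ≤ C₁ → ∃ C : ℝ, 0 ≤ C ∧ ∀ (r A η : ℝ)
    (T : Finset (V2 k × Ideal (𝓞 k) × ℕ)), 1 ≤ r → 1 ≤ A → 0 ≤ η →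
    (∀ a ∈ T, a.1 ∈ R.W ∧ a.1.2 ≠ 0 ∧ a.2.1 ≠ ⊥ ∧ nm a.2.1 * nn r a.1 ≤ 2 * C₁ * 2 ^ a.2.2 ∧
      nm a.2.1 * 2 ^ a.2.2 ≤ A) →
    ∑ a ∈ T, hw r η a ≤ C * (1 + η * A) * (1 + Real.log A) ^ 3

/-- (H1) the sum of the weights of the blocks, the line of `(1, 0)`. -/
def T_H1 : Prop :=
  ∀ (R : Ch k) (C₁ : ℝ), 1 ≤ C₁ → ∃ C : ℝ, 0 ≤ C ∧ ∀ (r A η : ℝ)
    (T : Finset (V2 k × Ideal (𝓞 k) × ℕ)), 1 ≤ r → 1 ≤ A → 0 ≤ η →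
    (∀ a ∈ T, a.1 ∈ R.W ∧ a.1.2 = 0 ∧ a.2.1 ≠ ⊥ ∧ nm a.2.1 * nn r a.1 ≤ 2 * C₁ * 2 ^ a.2.2 ∧
      nm a.2.1 * 2 ^ a.2.2 ≤ A) →
    ∑ a ∈ T, hw r η a ≤ C * r ^ dg k * (1 + η * A) * (1 + Real.log A) ^ 3

open Classical in
/-- (OFF) the off-diagonal terms. -/
def T_OFF : Prop :=
  ∀ (R : Ch k) (C₁ : ℝ), 1 ≤ C₁ → ∀ ε : ℝ, 0 < ε → ∃ d0 : ℝ, 0 < d0 ∧ ∀ δ : ℝ, 0 < δ → δ ≤ d0 →
    ∃ C : ℝ, 0 ≤ C ∧ ∀ (y r A M : ℝ) (P : RF k) (I : Finset (Ix k)) (c : Ix k → ℂ)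
      (μ : Ideal (𝓞 k) × ℕ → RF k),
      1 ≤ y → 1 ≤ r → r ≤ C₁ * y → 1 ≤ A → A ≤ y ^ (dg k * (1 + δ)) → 0 ≤ M →
      (∀ x ∈ I, Iv R C₁ r A x) →
      (∀ x ∈ I, ‖c x‖ ^ 2 * nm x.2.1.1 ^ 4 * nm (den x.2.2) ^ 2 * nn r x.1 ≤ M) →
      ‖∑' Q : QF k, (ga (y ^ (1 - δ)) r P Q : ℂ) * ∑ x ∈ I, ∑ x' ∈ I.filter (fun x' => x'.1 ≠ x.1),
        c x * (starRingEnd ℂ) (c x') * ee Q (lam μ x - lam μ x')‖ ≤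
        C * y ^ (dg k * (3 + ε)) * r ^ dg k * M

/-! ### Lattices of squarefree index -/

/-- (FLS) the lattices of the lines modulo an ideal. -/
def T_FLS : Prop :=
  ∀ (I : Ideal (𝓞 k)) (L : La k), I ≠ ⊥ → ((L ∈ Ls I ↔ ∃ u : V2 k, Cop I u ∧ L = Lw I u) ∧
    (L ∈ Ls I → (∀ a ∈ I, ∀ u : V2 k, a • u ∈ L) ∧ ix L = Ideal.absNorm I))

/-- (CRT) lattices of coprime indices. -/
def T_CRT : Prop :=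
  ∀ f m : Ideal (𝓞 k), f ≠ ⊥ → m ≠ ⊥ → f ⊔ m = ⊤ →
    (∀ L₁ ∈ Ls f, ∀ L₂ ∈ Ls m, L₁ ⊓ L₂ ∈ Ls (f * m)) ∧
    (∀ L ∈ Ls (f * m), ∃ L₁ ∈ Ls f, ∃ L₂ ∈ Ls m, L = L₁ ⊓ L₂) ∧
    (∀ L₁ ∈ Ls f, ∀ L₂ ∈ Ls m, ∀ L₁' ∈ Ls f, ∀ L₂' ∈ Ls m, L₁ ⊓ L₂ ≤ L₁' ⊓ L₂' →
      L₁ = L₁' ∧ L₂ = L₂')

/-- (RFM) the Ramanujan products are multiplicative. -/
def T_RFM : Prop :=
  ∀ (f m : Ideal (𝓞 k)) (L₁ L₂ : La k) (Q : QF k), f ≠ ⊥ → m ≠ ⊥ → f ⊔ m = ⊤ → L₁ ∈ Ls f →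
    L₂ ∈ Ls m →
    (∀ P : Ideal (𝓞 k), P.IsPrime → P ∣ f → (Dv P (L₁ ⊓ L₂) Q ↔ Dv P L₁ Q)) ∧
    Rn (f * m) (L₁ ⊓ L₂) Q = Rn f L₁ Q * Rn m L₂ Q

/-- (DVP) divisibility on the lattice of a vector. -/
def T_DVP : Prop :=
  ∀ (I P : Ideal (𝓞 k)) (u : V2 k) (Q : QF k), I ≠ ⊥ → P.IsPrime → P ∣ I → Cop I u →
    (Dv P (Lw I u) Q ↔ val Q u ∈ P)

/-- (RAM) the expansion in additive characters. -/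
def T_RAM : Prop :=
  ∀ (R : Ch k) (b : ℕ) (I : Ideal (𝓞 k)) (u : V2 k) (Q : QF k), Adm R b → I ≠ ⊥ → Squarefree I →
    I ⊔ Ideal.span {(b : 𝓞 k)} = ⊤ → Cop I u →
    (∀ a : k, a ∈ Rp R I ↔ a ∈ R.U ∧ den a = I) ∧
    (Rn I (Lw I u) Q : ℂ) = ∑ a ∈ Rp R I, ee Q (sq2 a u)

/-- (MIN) the shortest vector of a lattice. -/
def T_MIN : Prop :=
  ∃ C : ℝ, 1 ≤ C ∧ ∀ (r : ℝ) (M : La k), 0 < r → ix M ≠ 0 →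
    ∃ u ∈ M, u ≠ 0 ∧ nn r u = mn r M ∧ (∀ u' ∈ M, u' ≠ 0 → mn r M ≤ nn r u') ∧
      mn r M ≤ C * ix M

/-- (SHP) the shape of a lattice. -/
def T_SHP : Prop :=
  ∀ R : Ch k, ∃ C₁ : ℝ, 1 ≤ C₁ ∧ ∀ (b : ℕ) (r : ℝ) (I : Ideal (𝓞 k)) (L : La k), Adm R b →
    0 < r → I ≠ ⊥ → Squarefree I → I ⊔ Ideal.span {(b : 𝓞 k)} = ⊤ → L ∈ Ls I →
    ∃ (f m : Ideal (𝓞 k)) (L' : La k) (w : V2 k), Sh R C₁ r I L f m L' w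

/-- (CLF) the number of the pairs of a lattice and a frequency. -/
def T_CLF : Prop :=
  ∀ (R : Ch k) (b : ℕ) (f : Ideal (𝓞 k)), Adm R b → f ≠ ⊥ → Squarefree f →
    f ⊔ Ideal.span {(b : 𝓞 k)} = ⊤ →
    (Ls f).card * (Rp R f).card ≤ Ideal.absNorm f ^ 2 ∧ 1 ≤ (Rp R f).card

open Classical in
/-- (IDX) the expansion of the sum over the lattices in additive characters. -/
def T_IDX : Prop :=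
  ∀ R : Ch k, ∃ C₁ : ℝ, 1 ≤ C₁ ∧ ∀ (b : ℕ) (r A M : ℝ) (c : Ideal (𝓞 k) → La k → ℂ), Adm R b →
    0 < r → 1 ≤ A → 0 ≤ M →
    (∀ I ∈ Sq b A, ∀ L ∈ Ls I, ‖c I L‖ ^ 2 * nm I ^ 2 * mn r L ≤ M) →
    ∃ (I : Finset (Ix k)) (c' : Ix k → ℂ) (μ : Ideal (𝓞 k) × ℕ → RF k),
      (∀ x ∈ I, Iv R C₁ r A x) ∧
      (∀ x ∈ I, ‖c' x‖ ^ 2 * nm x.2.1.1 ^ 4 * nm (den x.2.2) ^ 2 * nn r x.1 ≤ C₁ * M) ∧
      (∀ Q : QF k, ∑ J ∈ Sq b A, ∑ L ∈ Ls J, c J L * (Rn J L Q : ℂ) =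
        ∑ x ∈ I, c' x * ee Q (lam μ x)) ∧
      ∀ (w : V2 k) (Q : QF k), w ∈ R.W → ‖∑ x ∈ I.filter (fun x => x.1 = w), c' x * ee Q (lam μ x)‖ ≤
        Real.sqrt (C₁ * M / nn r w) * Tw b A w Q

/-! ### The diagonal terms -/

/-- (LSP) the lattices of prime index. -/
def T_LSP : Prop :=
  ∀ P : Ideal (𝓞 k), P.IsPrime → P ≠ ⊥ → (Ls P).card = Ideal.absNorm P + 1 ∧
    Lw P (1, 0) ∈ Ls P ∧ (∀ x : 𝓞 k, Lw P (x, 1) ∈ Ls P) ∧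
    (∀ x x' : 𝓞 k, Lw P (x, 1) = Lw P (x', 1) ↔ x - x' ∈ P) ∧
    ∀ L ∈ Ls P, L = Lw P (1, 0) ∨ ∃ x : 𝓞 k, L = Lw P (x, 1)

/-- (RBP) prime indices. -/
def T_RBP : Prop :=
  ∀ (P : Ideal (𝓞 k)) (Q : QF k), P.IsPrime → P ≠ ⊥ →
    (Q.1 ∈ P → ∑ L ∈ Ls P, |Rn P L Q| ≤ 3 * nm P ^ 2) ∧
    (Q.1 ∉ P → ∑ L ∈ Ls P, |Rn P L Q| ≤ 3 * nm P)

/-- (RAB) the sum over the lattices of a given index. -/
def T_RAB : Prop :=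
  ∀ (f : Ideal (𝓞 k)) (Q : QF k), f ≠ ⊥ → Squarefree f →
    ∑ L ∈ Ls f, |Rn f L Q| ≤ 3 ^ (pf f).card * nm f * nm (f ⊔ Ideal.span {Q.1})

/-- (RMW) the Ramanujan sums. -/
def T_RMW : Prop :=
  ∀ (R : Ch k) (b : ℕ) (m : Ideal (𝓞 k)) (w : V2 k) (Q : QF k), Adm R b → m ≠ ⊥ → Squarefree m →
    m ⊔ Ideal.span {(b : 𝓞 k)} = ⊤ → w ∈ R.W →
    Cop m w ∧ |Rn m (Lw m w) Q| ≤ nm (m ⊔ Ideal.span {val Q w})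

/-- (GCD) sums of greatest common divisors. -/
def T_GCD : Prop :=
  ∀ ε : ℝ, 0 < ε → ∃ C : ℝ, 1 ≤ C ∧ ∀ (A : ℝ) (a : 𝓞 k), 1 ≤ A → a ≠ 0 →
    ∑ f ∈ Id k A, 3 ^ (pf f).card * nm (f ⊔ Ideal.span {a}) / nm f ≤ C * (A * Nr (a : k)) ^ ε

/-- (PTW) the pointwise bound. -/
def T_PTW : Prop :=
  ∀ (R : Ch k) (ε : ℝ), 0 < ε → ∃ C : ℝ, 0 ≤ C ∧ ∀ (b : ℕ) (A : ℝ) (w : V2 k) (Q : QF k),
    Adm R b → 1 ≤ A → w ∈ R.W → Q.1 ≠ 0 → val Q w ≠ 0 →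
    Tw b A w Q ≤ C * (A * Nr (Q.1 : k) * Nr (val Q w : k)) ^ ε

/-- (TRV) the trivial bound. -/
def T_TRV : Prop :=
  ∀ R : Ch k, ∃ C : ℝ, 0 ≤ C ∧ ∀ (b : ℕ) (A : ℝ) (w : V2 k) (Q : QF k), Adm R b → 1 ≤ A →
    w ∈ R.W → 0 ≤ Tw b A w Q ∧ Tw b A w Q ≤ C * A ^ 7

/-- (NPD) the forms which are not positive definite are far away. -/
def T_NPD : Prop :=
  ∀ B : ℝ, 1 ≤ B → ∃ c : ℝ, 0 < c ∧ ∀ (y r : ℝ) (P : RF k) (Q : QF k), 1 ≤ y → 0 < r →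
    Gd B y r P → (∃ v : Pl k, ¬ (0 < rv v (Q.1 : k) ∧ 0 < rv v (dsc Q : k))) →
    c * y ^ 2 ≤ dq r P (rl Q)

/-- (GMA) the mass of the Gaussian. -/
def T_GMA : Prop :=
  ∃ C : ℝ, 0 ≤ C ∧ ∀ (W r : ℝ) (P : RF k), 1 ≤ W → 1 ≤ r →
    Summable (fun Q : QF k => Real.exp (-(dq r P (rl Q) / W ^ 2))) ∧
    ∑' Q : QF k, Real.exp (-(dq r P (rl Q) / W ^ 2)) ≤ C * (W ^ 2 * (W + r)) ^ dg k

/-- (DIA) the diagonal terms. -/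
def T_DIA : Prop :=
  ∀ (R : Ch k) (C₁ B : ℝ), 1 ≤ C₁ → 1 ≤ B → ∀ ε : ℝ, 0 < ε → ∃ d0 : ℝ, 0 < d0 ∧
    ∀ δ : ℝ, 0 < δ → δ ≤ d0 → ∃ C : ℝ, 0 ≤ C ∧
    ∀ (b : ℕ) (y r A M : ℝ) (P : RF k) (F : Finset (V2 k)) (G : V2 k → QF k → ℂ), Adm R b →
      1 ≤ y → 1 ≤ r → r ≤ C₁ * y → 1 ≤ A → A ≤ y ^ (dg k * (1 + δ)) → 0 ≤ M → Gd B y r P →
      (∀ w ∈ F, w ∈ R.W ∧ nn r w ≤ C₁ * A) →
      (∀ w ∈ F, ∀ Q, ‖G w Q‖ ≤ Real.sqrt (M / nn r w) * Tw b A w Q) →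
      Summable (fun Q : QF k => ga (y ^ (1 - δ)) r P Q * ∑ w ∈ F, ‖G w Q‖ ^ 2) ∧
      ∑' Q : QF k, ga (y ^ (1 - δ)) r P Q * ∑ w ∈ F, ‖G w Q‖ ^ 2 ≤
        C * y ^ (dg k * (3 + ε)) * r ^ dg k * M

/-- (LS) the large sieve inequality. -/
def T_LS : Prop :=
  ∀ (R : Ch k) (C₂ B : ℝ), 1 ≤ C₂ → 1 ≤ B → ∀ ε : ℝ, 0 < ε → ∃ d0 : ℝ, 0 < d0 ∧
    ∀ δ : ℝ, 0 < δ → δ ≤ d0 → ∃ C : ℝ, 0 ≤ C ∧
    ∀ (b : ℕ) (y r A M : ℝ) (P : RF k) (S : Finset (QF k)) (c : Ideal (𝓞 k) → La k → ℂ), Adm R b →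
      1 ≤ y → 1 ≤ r → r ≤ C₂ * y → 1 ≤ A → A ≤ y ^ (dg k * (1 + δ)) → 0 ≤ M → Gd B y r P →
      (∀ Q ∈ S, dq r P (rl Q) ≤ y ^ (2 - 2 * δ)) →
      (∀ I ∈ Sq b A, ∀ L ∈ Ls I, ‖c I L‖ ^ 2 * nm I ^ 2 * mn r L ≤ M) →
      ∑ Q ∈ S, ‖∑ I ∈ Sq b A, ∑ L ∈ Ls I, c I L * (Rn I L Q : ℂ)‖ ^ 2 ≤
        C * y ^ (dg k * (3 + ε)) * r ^ dg k * M

end

end Pool.Agent.H65.CM4
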