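import Pool.Agent.H98.CM4.EMB

/-!
# CM4, MKI: Minkowski's theorem for ideals
-/

set_option autoImplicit false

open NumberField NumberField.InfinitePlace
open scoped Real nonZeroDivisors

namespace Pool.Agent.H65.CM4

variable (k : Type) [Field k] [NumberField k] [IsTotallyReal k]

theorem pf_MKI (hEMB : T_EMB k) : T_MKI k := by
  obtain ⟨-, -, -, hN, -, -, -, -, -, h1, -, -⟩ := hEMB
  refine ⟨max 1 ((4 / π) ^ nrComplexPlaces k * ((Module.finrank ℚ k).factorial /
    (Module.finrank ℚ k) ^ (Module.finrank ℚ k) * Real.sqrt |discr k|)), le_max_left _ _, ?_⟩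
  intro I hI
  have hI' : I ∈ (Ideal (𝓞 k))⁰ := mem_nonZeroDivisors_iff_ne_zero.mpr (by simpa using hI)
  obtain ⟨a, ha, ha0, hle⟩ := exists_ne_zero_mem_ideal_of_norm_le_mul_sqrt_discr k
    (FractionalIdeal.mk0 k ⟨I, hI'⟩)
  rw [FractionalIdeal.coe_mk0] at ha hle
  obtain ⟨x, hx, rfl⟩ := (FractionalIdeal.mem_coeIdeal _).mp ha
  refine ⟨x, hx, fun h => ha0 (by rw [h, map_zero]), ?_⟩
  have e : Nr ((x : 𝓞 k) : k) = |((Algebra.norm ℚ ((algebraMap (𝓞 k) k) x) : ℚ) : ℝ)| := hN x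
  rw [e]
  have h2 : (0 : ℝ) ≤ nm I := by unfold nm; positivity
  have h3 : (FractionalIdeal.absNorm (I : FractionalIdeal (𝓞 k)⁰ k) : ℝ) = nm I := by
    unfold nm
    rw [FractionalIdeal.coeIdeal_absNorm]
    norm_num
  have h4 : |((Algebra.norm ℚ ((algebraMap (𝓞 k) k) x) : ℚ) : ℝ)| ≤
      nm I * ((4 / π) ^ nrComplexPlaces k * ((Module.finrank ℚ k).factorial /
    (Module.finrank ℚ k) ^ (Module.finrank ℚ k) * Real.sqrt |discr k|)) := by
    have h5 := hle
    rw [h3] at h5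
    refine le_trans (le_of_eq ?_) (le_trans h5 (le_of_eq ?_))
    · push_cast; rfl
    · ring
  refine h4.trans ?_
  rw [mul_comm]
  exact mul_le_mul_of_nonneg_right (le_max_right _ _) h2

end Pool.Agent.H65.CM4
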