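import Pool.Agent.H1.CM4.RAB
import Pool.Agent.H11.CM4.H1
import Pool.Agent.H13.CM4.RFM
import Pool.Agent.H14.CM4.HG
import Pool.Agent.H14.CM4.PN1
import Pool.Agent.H14.CM4.RMW
import Pool.Agent.H15.CM4.NI
import Pool.Agent.H16.CM4.W10
import Pool.Agent.H19.CM4.CLF
import Pool.Agent.H19.CM4.MIN
import Pool.Agent.H19.CM4.WSM
import Pool.Agent.H29.CM4.IDX
import Pool.Agent.H29.CM4.SHP
import Pool.Agent.H30.CM4.LS
import Pool.Agent.H33.CM4.BAL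
import Pool.Agent.H33.CM4.PTW
import Pool.Agent.H33.CM4.RPC
import Pool.Agent.H34.CM4.IDC
import Pool.Agent.H34.CM4.LOW
import Pool.Agent.H37.CM4.BXC
import Pool.Agent.H38.CM4.DVI
import Pool.Agent.H38.CM4.PN3
import Pool.Agent.H39.CM4.DIA
import Pool.Agent.H45.CM4.CHX
import Pool.Agent.H49.CM4.GCD
import Pool.Agent.H52.CM4.NRD
import Pool.Agent.H52.CM4.TAL
import Pool.Agent.H54.CM4.CRT
import Pool.Agent.H61.CM4.TRV
import Pool.Agent.H65.CM4.CNT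
import Pool.Agent.H65.CM4.MKI
import Pool.Agent.H66.CM4.DVP
import Pool.Agent.H7.CM4.CLS
import Pool.Agent.H70.CM4.LSP
import Pool.Agent.H72.CM4.NPD
import Pool.Agent.H74.CM4.RAM
import Pool.Agent.H77.CM4.CAB
import Pool.Agent.H77.CM4.NW
import Pool.Agent.H86.CM4.GMA
import Pool.Agent.H86.CM4.RBP
import Pool.Agent.H90.CM4.GRP
import Pool.Agent.H90.CM4.OFF
import Pool.Agent.H96.CM4.FLS
import Pool.Agent.H98.CM4.EMB

/-!
# The fourth moment of the class group `L`-functions of the CM quadratic extensions of a totally real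
field: assembly of part A (the large sieve inequality over the binary quadratic forms over `k`)
-/

set_option autoImplicit false

open NumberField

namespace Pool.Agent.H65.CM4

variable (k : Type) [Field k] [NumberField k] [IsTotallyReal k]

theorem a_EMB : T_EMB k := Pool.Agent.H98.CM4.pf_EMB k

theorem a_BAL : T_BAL k := Pool.Agent.H33.CM4.pf_BAL k (a_EMB k)

theorem a_BXC : T_BXC k := Pool.Agent.H37.CM4.pf_BXC k (a_EMB k) (a_BAL k)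

theorem a_NRD : T_NRD k := Pool.Agent.H52.CM4.pf_NRD k (a_EMB k)

theorem a_CAB : T_CAB k := Pool.Agent.H77.CM4.pf_CAB k (a_EMB k) (a_BXC k) (a_NRD k)

theorem a_MKI : T_MKI k := Pool.Agent.H65.CM4.pf_MKI k (a_EMB k)

theorem a_CHX : T_CHX k := Pool.Agent.H45.CM4.pf_CHX k (a_EMB k) (a_MKI k)

theorem a_FLS : T_FLS k := Pool.Agent.H96.CM4.pf_FLS k

theorem a_CRT : T_CRT k := Pool.Agent.H54.CM4.pf_CRT k (a_FLS k)

theorem a_DVP : T_DVP k := Pool.Agent.H66.CM4.pf_DVP k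

theorem a_RFM : T_RFM k := Pool.Agent.H13.CM4.pf_RFM k (a_FLS k) (a_CRT k)

theorem a_RPC : T_RPC k := Pool.Agent.H33.CM4.pf_RPC k (a_EMB k)

theorem a_RAM : T_RAM k :=
  Pool.Agent.H74.CM4.pf_RAM k (a_EMB k) (a_FLS k) (a_CRT k) (a_DVP k) (a_RFM k) (a_RPC k)

theorem a_CLF : T_CLF k := Pool.Agent.H19.CM4.pf_CLF k (a_FLS k) (a_CRT k) (a_RAM k)

theorem a_CLS : T_CLS k := Pool.Agent.H7.CM4.pf_CLS k (a_EMB k)

theorem a_CNT : T_CNT k :=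
  Pool.Agent.H65.CM4.pf_CNT k (a_EMB k) (a_BXC k) (a_NRD k) (a_CLS k) (a_CAB k)

theorem a_W10 : T_W10 k := Pool.Agent.H16.CM4.pf_W10 k (a_EMB k)

theorem a_NW : T_NW k := Pool.Agent.H77.CM4.pf_NW k (a_EMB k) (a_BAL k) (a_BXC k) (a_NRD k)

theorem a_WSM : T_WSM k := Pool.Agent.H19.CM4.pf_WSM k (a_NW k)

theorem a_LSP : T_LSP k := Pool.Agent.H70.CM4.pf_LSP k (a_FLS k)

theorem a_RBP : T_RBP k := Pool.Agent.H86.CM4.pf_RBP k (a_EMB k) (a_LSP k) (a_DVP k)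

theorem a_RAB : T_RAB k :=
  Pool.Agent.H1.CM4.pf_RAB k (a_EMB k) (a_FLS k) (a_CRT k) (a_RFM k) (a_RBP k)

theorem a_RMW : T_RMW k := Pool.Agent.H14.CM4.pf_RMW k (a_EMB k) (a_DVP k)

theorem a_IDC : T_IDC k := Pool.Agent.H34.CM4.pf_IDC k (a_EMB k)

theorem a_DVI : T_DVI k := Pool.Agent.H38.CM4.pf_DVI k (a_EMB k)

theorem a_GCD : T_GCD k := Pool.Agent.H49.CM4.pf_GCD k (a_EMB k) (a_IDC k) (a_DVI k)

theorem a_PTW : T_PTW k :=
  Pool.Agent.H33.CM4.pf_PTW k (a_EMB k) (a_RAB k) (a_RMW k) (a_GCD k) (a_IDC k)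

theorem a_TRV : T_TRV k := Pool.Agent.H61.CM4.pf_TRV k (a_EMB k) (a_CLF k) (a_IDC k)

theorem a_NPD : T_NPD k := Pool.Agent.H72.CM4.pf_NPD k (a_EMB k)

theorem a_GMA : T_GMA k := Pool.Agent.H86.CM4.pf_GMA k (a_EMB k) (a_BXC k)

theorem a_DIA : T_DIA k :=
  Pool.Agent.H39.CM4.pf_DIA k (a_EMB k) (a_NRD k) (a_W10 k) (a_WSM k) (a_PTW k) (a_TRV k) (a_NPD k)
    (a_GMA k)

theorem a_GRP : T_GRP k := Pool.Agent.H90.CM4.pf_GRP k (a_EMB k) (a_NRD k) (a_CNT k) (a_W10 k)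

theorem a_H1 : T_H1 k := Pool.Agent.H11.CM4.pf_H1 k (a_W10 k) (a_IDC k)

theorem a_HG : T_HG k := Pool.Agent.H14.CM4.pf_HG k (a_NW k) (a_WSM k) (a_IDC k)

theorem a_LOW : T_LOW k := Pool.Agent.H34.CM4.pf_LOW k (a_EMB k)

theorem a_MIN : T_MIN k := Pool.Agent.H19.CM4.pf_MIN k (a_EMB k) (a_BAL k) (a_BXC k) (a_LOW k)

theorem a_SHP : T_SHP k := Pool.Agent.H29.CM4.pf_SHP k (a_EMB k) (a_FLS k) (a_CRT k) (a_MIN k)

theorem a_IDX : T_IDX k :=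
  Pool.Agent.H29.CM4.pf_IDX k (a_EMB k) (a_FLS k) (a_CRT k) (a_RFM k) (a_RAM k) (a_SHP k) (a_CLF k)
    (a_IDC k)

theorem a_PN1 : T_PN1 k := Pool.Agent.H14.CM4.pf_PN1 k (a_EMB k) (a_LOW k)

theorem a_PN3 : T_PN3 k := Pool.Agent.H38.CM4.pf_PN3 k (a_EMB k) (a_PN1 k)

theorem a_TAL : T_TAL k := Pool.Agent.H52.CM4.pf_TAL k (a_EMB k) (a_LOW k) (a_BXC k) (a_PN3 k)

theorem a_NI : T_NI k :=
  Pool.Agent.H15.CM4.pf_NI k (a_EMB k) (a_BXC k) (a_NW k) (a_W10 k) (a_IDC k) (a_RPC k)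

theorem a_OFF : T_OFF k :=
  Pool.Agent.H90.CM4.pf_OFF k (a_EMB k) (a_NRD k) (a_PN3 k) (a_TAL k) (a_NI k) (a_GRP k) (a_HG k)
    (a_H1 k) (a_W10 k)

theorem a_LS : T_LS k :=
  Pool.Agent.H30.CM4.pf_LS k (a_CHX k) (a_EMB k) (a_NRD k) (a_W10 k) (a_NW k) (a_OFF k) (a_DIA k)
    (a_IDX k)

end Pool.Agent.H65.CM4
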