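import Pool.Agent.H65.CM4.AsmB
import Pool.Agent.H95.CM4.AllC
import Pool.Agent.H23.CM4.Asm

/-!
# The fourth moment of the class group `L`-functions of the CM quadratic extensions of a totally real
field: the theorem
-/

set_option autoImplicit false

namespace Pool.Agent.H65.CM4

/-- the final theorem -/
theorem fin : T_FIN :=
  Pool.Agent.H23.CM4.partD (Pool.Agent.H95.CM.all_C B.b_TM Pool.Agent.H61.CM4B.c_EZA).1
    Pool.Agent.H61.CM4B.c_KCB Pool.Agent.H61.CM4B.c_KCD

end Pool.Agent.H65.CM4
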