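import Pool.Agent.H13.CM4.HEC
import Pool.Agent.H2.CM4.FML
import Pool.Agent.H2.CM4.TM
import Pool.Agent.H31.CM4.EXP
import Pool.Agent.H33.CM4.CAS
import Pool.Agent.H34.CM4.FZC
import Pool.Agent.H39.CM4.CFB
import Pool.Agent.H4.CM4.HE1
import Pool.Agent.H4.CM4.QZR
import Pool.Agent.H45.CM4.ECC
import Pool.Agent.H45.CM4.LSM
import Pool.Agent.H45.CM4.QCB
import Pool.Agent.H49.CM4.TRI
import Pool.Agent.H58.CM4.KMN
import Pool.Agent.H60.CM4.CA1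
import Pool.Agent.H60.CM4.FOR
import Pool.Agent.H60.CM4.IND
import Pool.Agent.H61.CM4.BIX
import Pool.Agent.H61.CM4B.AsmB1
import Pool.Agent.H64.CM4.CNL
import Pool.Agent.H65.CM4.AsmA
import Pool.Agent.H74.CM4.CVR
import Pool.Agent.H89.CM4.BOX
import Pool.Agent.H89.CM4.CEL
import Pool.Agent.H89.CM4.DUL
import Pool.Agent.H89.CM4.IXF
import Pool.Agent.H89.CM4.RDB
import Pool.Agent.H90.CM4.LCN
import Pool.Agent.H91.CM4.ECB
import Pool.Agent.H96.CM4.IXC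

/-!
# The fourth moment of the class group `L`-functions of the CM quadratic extensions of a totally real
field: assembly of part B (the twisted second moment over the reduced forms)
-/

set_option autoImplicit false

open NumberField

namespace Pool.Agent.H65.CM4.B

open Pool.Agent.H65.CM4 Pool.Agent.H89.CM4

variable (k : Type) [Field k] [NumberField k] [IsTotallyReal k]

theorem b_KCB : Pool.Agent.H89.CM4.T_KCB k := Pool.Agent.H61.CM4B.e_KCB k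

theorem b_KCD : Pool.Agent.H89.CM4.T_KCD k := Pool.Agent.H61.CM4B.e_KCD k

theorem b_EZA : Pool.Agent.H89.CM4.T_EZA k := Pool.Agent.H61.CM4B.e_EZA k

theorem b_IXF : T_IXF k := Pool.Agent.H89.CM4.pf_IXF k (a_EMB k)

theorem b_BIX : T_BIX k := Pool.Agent.H61.CM4.pf_BIX k (a_EMB k) (b_IXF k)

theorem b_BLV : T_BLV k := Pool.Agent.H89.CM4.pf_BLV k (a_EMB k) (a_BAL k) (a_NRD k)

theorem b_CA1 : T_CA1 := Pool.Agent.H60.CM4.pf_CA1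

theorem b_CAS : T_CAS := Pool.Agent.H33.CM4.pf_CAS b_CA1

theorem b_QCB : T_QCB k := Pool.Agent.H45.CM4.pf_QCB k (a_NRD k)

theorem b_FOR : T_FOR k := Pool.Agent.H60.CM4.pf_FOR k

theorem b_LCN : T_LCN k :=
  Pool.Agent.H90.CM4.pf_LCN k (a_EMB k) (a_BXC k) (b_BLV k) (a_NRD k) (b_FOR k) (a_MIN k)

theorem b_LSM : T_LSM k := Pool.Agent.H45.CM4.pf_LSM k (b_LCN k) (a_MIN k)

theorem b_DUL : T_DUL k := Pool.Agent.H89.CM4.pf_DUL k (a_EMB k) (a_MKI k) (b_BIX k) (a_MIN k)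

theorem b_ECC : T_ECC k :=
  Pool.Agent.H45.CM4.pf_ECC k (b_KCB k) (b_KCD k) (b_QCB k) (b_LSM k) (b_BIX k) (b_DUL k) (a_MIN k)
    (a_NRD k)

theorem b_IXC : T_IXC k := Pool.Agent.H96.CM4.pf_IXC k (a_EMB k) (a_FLS k) (b_IXF k)

theorem b_FZC : T_FZC k := Pool.Agent.H34.CM4.pf_FZC k (b_ECC k) (b_IXC k) (a_IDC k)

theorem b_ECB : T_ECB k :=
  Pool.Agent.H91.CM4.pf_ECB k (b_KCB k) (b_QCB k) (b_LSM k) (b_BIX k) (b_DUL k) (a_MIN k) (a_NRD k)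

theorem b_KMN : T_KMN k :=
  Pool.Agent.H58.CM4.pf_KMN k (a_EMB k) (a_MKI k) (a_MIN k) (a_FLS k) (b_IXC k) (a_NRD k)

theorem b_MNL : T_MNL k := Pool.Agent.H89.CM4.pf_MNL k (a_EMB k) (a_MIN k)

theorem b_CFB : T_CFB k :=
  Pool.Agent.H39.CM4.pf_CFB k (b_ECB k) (b_KMN k) (b_IXC k) (b_MNL k) (a_IDC k) (a_DVI k) (a_EMB k)
    (a_MIN k) (a_FLS k)

theorem b_CNL : T_CNL k := Pool.Agent.H64.CM4.pf_CNL k (a_FLS k) (a_CRT k) (a_LSP k) (a_IDC k)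

theorem b_QZR : T_QZR k := Pool.Agent.H4.CM4.pf_QZR k (a_EMB k)

theorem b_HE1 : T_HE1 k :=
  Pool.Agent.H4.CM4.pf_HE1 k (b_EZA k) (b_CNL k) (b_IXC k) (b_QZR k) (a_CRT k) (a_FLS k) (a_IDC k)

theorem b_HEC : T_HEC k :=
  Pool.Agent.H13.CM4.pf_HEC k (b_HE1 k) (b_EZA k) (b_IXC k) (a_FLS k) (a_CRT k)

theorem b_IND : T_IND k := Pool.Agent.H60.CM4.pf_IND k (a_IDC k)

theorem b_EXP : T_EXP k :=
  Pool.Agent.H31.CM4.pf_EXP k (b_HEC k) (b_IND k) (a_RFM k) (a_CRT k) (a_FLS k) (a_IDC k) (b_QZR k)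

theorem b_CEL : T_CEL k :=
  Pool.Agent.H89.CM4.pf_CEL k b_CAS (b_FZC k) (b_CFB k) (b_EXP k) (a_LS k) (a_EMB k)

theorem b_CVR : T_CVR k := Pool.Agent.H74.CM4.pf_CVR k (a_EMB k)

theorem b_BOX : T_BOX k := Pool.Agent.H89.CM4.pf_BOX k (b_CEL k) (b_CVR k) (a_EMB k)

theorem b_FML : T_FML k := Pool.Agent.H2.CM4.pf_FML k

theorem b_TRI : T_TRI k := Pool.Agent.H49.CM4.pf_TRI k (b_FOR k) (b_QZR k) (a_FLS k) (a_IDC k)

theorem b_RDB : T_RDB k :=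
  Pool.Agent.H89.CM4.pf_RDB k (b_BOX k) (b_TRI k) (a_LOW k) (a_BXC k) (a_EMB k)

theorem b_TM : T_TM :=
  Pool.Agent.H2.CM4.pf_TM (fun k _ _ _ => b_RDB k) (fun k _ _ _ => b_FML k) (fun k _ _ _ => a_CHX k)
    (fun k _ _ _ => a_EMB k)

end Pool.Agent.H65.CM4.B
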