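import Pool.Agent.H65.CM4.Targets1

/-!
# CM4, CNT: the number of coincidences for two vectors
-/

set_option autoImplicit false

open MeasureTheory Set Filter NumberField NumberField.InfinitePlace
open scoped Real

namespace Pool.Agent.H65.CM4

variable (k : Type) [Field k] [NumberField k] [IsTotallyReal k]

section

variable {k}

/-- the bilinear form of a real form at the vectors orthogonal to `v` and `w`, at the place `p` -/
noncomputable def bp (v w : V2 k) (p : Pl k) (E : ℝ × ℝ × ℝ) : ℝ :=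
  E.1 * (rv p (v.2 : k) * rv p (w.2 : k)) -
    E.2.1 * (rv p (v.1 : k) * rv p (w.2 : k) + rv p (v.2 : k) * rv p (w.1 : k)) +
    E.2.2 * (rv p (v.1 : k) * rv p (w.1 : k))

theorem bp_eq (v w : V2 k) (μ : RF k) (a b : k) (Z : QF k) (p : Pl k) :
    bp v w p ((dp Z + μ + sq2 a v - sq2 b w) p) =
      (dk k : ℝ)⁻¹ * rv p (hb Z v w : k) + bp v w p (μ p) := by
  simp only [bp, Pi.add_apply, Pi.sub_apply, Prod.fst_add, Prod.snd_add, Prod.fst_sub, Prod.snd_sub,
    dp, sq2, rl, Prod.smul_fst, Prod.smul_snd, smul_eq_mul, hb]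
  push_cast
  simp only [map_add, map_sub, map_mul]
  ring

theorem hb_sqo_left (v w : V2 k) : hb (sqo v) v w = 0 := by
  simp only [hb, sqo]; ring

theorem hb_sqo_right (v w : V2 k) : hb (sqo w) v w = 0 := by
  simp only [hb, sqo]; ring

theorem hb_add (Z Z' : QF k) (v w : V2 k) : hb (Z + Z') v w = hb Z v w + hb Z' v w := by
  simp only [hb, Prod.fst_add, Prod.snd_add]; ring

theorem hb_sub (Z Z' : QF k) (v w : V2 k) : hb (Z - Z') v w = hb Z v w - hb Z' v w := by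
  simp only [hb, Prod.fst_sub, Prod.snd_sub]; ring

theorem hb_smul (c : 𝓞 k) (Z : QF k) (v w : V2 k) : hb (c • Z) v w = c * hb Z v w := by
  simp only [hb, Prod.smul_fst, Prod.smul_snd, smul_eq_mul]; ring

theorem dz1_nonneg (r : ℝ) (E : ℝ × ℝ × ℝ) : 0 ≤ dz1 r E := by unfold dz1; positivity

theorem dz1_le (r : ℝ) (E : RF k) (p : Pl k) : dz1 r (E p) ≤ dz r E := by
  unfold dz
  exact Finset.single_le_sum (f := fun v => dz1 r (E v)) (fun v _ => dz1_nonneg r (E v))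
    (Finset.mem_univ p)

/-- the equivalence of the dual points -/
def eqv (v w : V2 k) : Setoid (QF k) where
  r Z Z' := ∃ c c' : 𝓞 k, Z - Z' = ((dk k : 𝓞 k) * c) • sqo v - ((dk k : 𝓞 k) * c') • sqo w
  iseqv := by
    refine ⟨fun Z => ⟨0, 0, by simp⟩, ?_, ?_⟩
    · rintro Z Z' ⟨c, c', h⟩
      refine ⟨-c, -c', ?_⟩
      rw [← neg_sub Z Z', h, mul_neg, mul_neg, neg_smul, neg_smul]
      abel
    · rintro Z Z' Z'' ⟨c, c', h⟩ ⟨e, e', h'⟩
      refine ⟨c + e, c' + e', ?_⟩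
      rw [← sub_add_sub_cancel Z Z' Z'', h, h', mul_add, mul_add, add_smul, add_smul]
      abel

/-- the representative of a dual point -/
noncomputable def rep (v w : V2 k) (Z : QF k) : QF k := (Quotient.mk (eqv v w) Z).out

theorem rep_spec (v w : V2 k) (Z : QF k) : ∃ c c' : 𝓞 k,
    Z - rep v w Z = ((dk k : 𝓞 k) * c) • sqo v - ((dk k : 𝓞 k) * c') • sqo w :=
  (eqv v w).symm (Quotient.mk_out (s := eqv v w) Z)

theorem rep_eq (v w : V2 k) (Z Z' : QF k) (c c' : 𝓞 k)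
    (h : rep v w Z - rep v w Z' = ((dk k : 𝓞 k) * c) • sqo v - ((dk k : 𝓞 k) * c') • sqo w) :
    rep v w Z = rep v w Z' := by
  have h1 : Quotient.mk (eqv v w) (rep v w Z) = Quotient.mk (eqv v w) (rep v w Z') :=
    Quotient.sound (s := eqv v w) ⟨c, c', h⟩
  unfold rep at h1
  rw [Quotient.out_eq, Quotient.out_eq] at h1
  unfold rep
  rw [h1]

theorem hb_rep (v w : V2 k) (Z : QF k) : hb (rep v w Z) v w = hb Z v w := by
  obtain ⟨c, c', h⟩ := rep_spec v w Z
  have h1 : hb (Z - rep v w Z) v w = 0 := by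
    rw [h, hb_sub, hb_smul, hb_smul, hb_sqo_left, hb_sqo_right]; ring
  rw [hb_sub] at h1
  exact (sub_eq_zero.mp h1).symm

theorem dp_shift (hd : 0 < dk k) (v w : V2 k) (μ : RF k) (a b : k) (Z Z0 : QF k) (c c' : 𝓞 k)
    (h : Z - Z0 = ((dk k : 𝓞 k) * c) • sqo v - ((dk k : 𝓞 k) * c') • sqo w) :
    dp Z + μ + sq2 a v - sq2 b w = (dp Z0 + μ) + sq2 (a + c) v - sq2 (b + c') w := by
  have hd' : (dk k : ℝ) ≠ 0 := by positivity
  have hZ : Z = Z0 + (((dk k : 𝓞 k) * c) • sqo v - ((dk k : 𝓞 k) * c') • sqo w) := by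
    rw [← h]; abel
  subst hZ
  funext p
  have hn : ∀ n : ℕ, rv p ((n : 𝓞 k) : k) = (n : ℝ) := by
    intro n
    have : (((n : 𝓞 k)) : k) = (n : k) := by push_cast; rfl
    rw [this, map_natCast]
  refine Prod.ext ?_ (Prod.ext ?_ ?_)
  all_goals
    simp only [Pi.add_apply, Pi.sub_apply, Prod.fst_add, Prod.snd_add, Prod.fst_sub, Prod.snd_sub,
      dp, sq2, rl, sqo, Prod.smul_fst, Prod.smul_snd, smul_eq_mul]
    push_cast
    simp only [map_add, map_sub, map_mul, map_pow, map_natCast]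
    field_simp
    ring

theorem den_add_int (a : k) (c : 𝓞 k) : den (a + c) = den a := by
  ext t
  change Int' ((t : k) * (a + c)) ↔ Int' ((t : k) * a)
  constructor
  · rintro ⟨y, hy⟩
    refine ⟨y - t * c, ?_⟩
    have h : ((y - t * c : 𝓞 k) : k) = (y : k) - t * c := by simp
    rw [h, hy]; ring
  · rintro ⟨y, hy⟩
    refine ⟨y + t * c, ?_⟩
    have h : ((y + t * c : 𝓞 k) : k) = (y : k) + t * c := by simp
    rw [h, hy]; ring

end

section

variable {k}

/-- the sum over the fibres -/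
theorem card_le_fib {α β : Type} [DecidableEq β] (s : Finset α) (f : α → β) (T M : ℝ)
    (hT : ((s.image f).card : ℝ) ≤ T) (hM : 0 ≤ M)
    (h : ∀ b ∈ s.image f, ((s.filter (fun a => f a = b)).card : ℝ) ≤ M) :
    (s.card : ℝ) ≤ T * M := by
  have h1 : (s.card : ℝ) = ∑ b ∈ s.image f, ((s.filter (fun a => f a = b)).card : ℝ) := by
    rw [Finset.card_eq_sum_card_image f s]
    push_cast
    rfl
  rw [h1]
  refine (Finset.sum_le_card_nsmul _ _ M h).trans ?_
  rw [nsmul_eq_mul]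
  exact mul_le_mul_of_nonneg_right hT hM

/-- the frequencies with a given value of the bilinear form, and a given class -/
theorem fib2 (hd : 0 < dk k) (C3 : ℝ)
    (hCAB : ∀ (r η A B : ℝ) (v w : V2 k) (ν : RF k) (F : Finset (k × k)), 0 < r → 0 < η →
      1 ≤ A → 1 ≤ B → det v w ≠ 0 →
      (∀ x ∈ F, nm (den x.1) ≤ A ∧ nm (den x.2) ≤ B ∧ dz r (ν + sq2 x.1 v - sq2 x.2 w) ≤ η ^ 2) →
      (F.card : ℝ) ≤
        (C3 + C3 * η ^ dg k * A ^ 2 * Real.sqrt (nn r w) / (Nr (det v w : k) * Real.sqrt (nn r v))) *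
          (1 + C3 * η ^ dg k * B ^ 2 / nn r w))
    (r η A B : ℝ) (v w : V2 k) (μ : RF k) (F : Finset (k × k × QF k)) (hr : 0 < r) (hη : 0 < η)
    (hA : 1 ≤ A) (hB : 1 ≤ B) (hdet : det v w ≠ 0)
    (huni : ∀ x ∈ F, ∀ y ∈ F, Int' (x.1 - y.1) → Int' (x.2.1 - y.2.1) → x.1 = y.1 ∧ x.2.1 = y.2.1)
    (hF : ∀ x ∈ F, nm (den x.1) ≤ A ∧ nm (den x.2.1) ≤ B ∧
      dz r (dp x.2.2 + μ + sq2 x.1 v - sq2 x.2.1 w) ≤ η ^ 2)
    (Z0 : QF k) (hZ : ∀ x ∈ F, rep v w x.2.2 = Z0) :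
    (F.card : ℝ) ≤
        (C3 + C3 * η ^ dg k * A ^ 2 * Real.sqrt (nn r w) / (Nr (det v w : k) * Real.sqrt (nn r v))) *
          (1 + C3 * η ^ dg k * B ^ 2 / nn r w) := by
  classical
  have hc : ∀ Z : QF k, ∃ c : 𝓞 k × 𝓞 k,
      Z - rep v w Z = ((dk k : 𝓞 k) * c.1) • sqo v - ((dk k : 𝓞 k) * c.2) • sqo w := by
    intro Z
    obtain ⟨c, c', h⟩ := rep_spec v w Z
    exact ⟨(c, c'), h⟩
  choose c hc using hc
  let φ : k × k × QF k → k × k := fun x => (x.1 + ((c x.2.2).1 : k), x.2.1 + ((c x.2.2).2 : k))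
  have hinj : Set.InjOn φ F := by
    intro x hx y hy hxy
    have e1 : x.1 + ((c x.2.2).1 : k) = y.1 + ((c y.2.2).1 : k) := congrArg Prod.fst hxy
    have e2 : x.2.1 + ((c x.2.2).2 : k) = y.2.1 + ((c y.2.2).2 : k) := congrArg Prod.snd hxy
    have i1 : Int' (x.1 - y.1) := by
      refine ⟨(c y.2.2).1 - (c x.2.2).1, ?_⟩
      have h : (((c y.2.2).1 - (c x.2.2).1 : 𝓞 k) : k) = ((c y.2.2).1 : k) - (c x.2.2).1 := by simp
      rw [h]
      linear_combination (-1 : k) * e1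
    have i2 : Int' (x.2.1 - y.2.1) := by
      refine ⟨(c y.2.2).2 - (c x.2.2).2, ?_⟩
      have h : (((c y.2.2).2 - (c x.2.2).2 : 𝓞 k) : k) = ((c y.2.2).2 : k) - (c x.2.2).2 := by simp
      rw [h]
      linear_combination (-1 : k) * e2
    obtain ⟨h1, h2⟩ := huni x hx y hy i1 i2
    have c1 : (c x.2.2).1 = (c y.2.2).1 := by
      apply RingOfIntegers.ext
      rw [h1] at e1
      exact add_left_cancel e1
    have c2 : (c x.2.2).2 = (c y.2.2).2 := by
      apply RingOfIntegers.ext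
      rw [h2] at e2
      exact add_left_cancel e2
    have hz : x.2.2 = y.2.2 := by
      have a1 := hc x.2.2
      have a2 := hc y.2.2
      rw [hZ x hx, c1, c2] at a1
      rw [hZ y hy] at a2
      rw [← a2] at a1
      exact sub_left_injective a1
    exact Prod.ext h1 (Prod.ext h2 hz)
  rw [← Finset.card_image_of_injOn hinj]
  refine hCAB r η A B v w (dp Z0 + μ) (F.image φ) hr hη hA hB hdet ?_
  intro z hz
  obtain ⟨x, hx, rfl⟩ := Finset.mem_image.mp hz
  obtain ⟨h1, h2, h3⟩ := hF x hx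
  refine ⟨?_, ?_, ?_⟩
  · change nm (den (x.1 + ((c x.2.2).1 : k))) ≤ A
    rw [den_add_int]; exact h1
  · change nm (den (x.2.1 + ((c x.2.2).2 : k))) ≤ B
    rw [den_add_int]; exact h2
  · have h4 := hc x.2.2
    rw [hZ x hx] at h4
    rw [dp_shift hd v w μ x.1 x.2.1 x.2.2 Z0 _ _ h4] at h3
    exact h3

/-- the number of the values of the bilinear form -/
theorem hval (hEMB : T_EMB k) (hNRD : T_NRD k) (C1 : ℝ) (hC1 : 1 ≤ C1)
    (hBXC : ∀ (m : ℝ) (g : Pl k → ℝ) (F : Finset k), 0 < m → (∀ v, 0 ≤ g v) →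
      (∀ x ∈ F, ∀ y ∈ F, x ≠ y → m ≤ Nr (x - y) ∧ ∀ v, |rv v (x - y)| ≤ g v) →
      (F.card : ℝ) ≤ C1 * (1 + (∏ v : Pl k, g v) / m))
    (r η Λ : ℝ) (v w : V2 k) (μ : RF k) (F : Finset (k × k × QF k)) (hr : 0 < r) (hη : 0 < η)
    (hΛ : 1 ≤ Λ) (h1 : η ^ dg k * nn r v ≤ Λ) (h2 : η ^ dg k * nn r w ≤ Λ)
    (hF : ∀ x ∈ F, dz r (dp x.2.2 + μ + sq2 x.1 v - sq2 x.2.1 w) ≤ η ^ 2) [DecidableEq (𝓞 k)] :
    ((F.image (fun x => hb x.2.2 v w)).card : ℝ) ≤ C1 * (1 + (4 * dk k) ^ dg k) * Λ := by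
  classical
  have hd : 0 < dk k := hEMB.2.2.1
  have hd' : (0 : ℝ) < dk k := by exact_mod_cast hd
  have hcard : Fintype.card (Pl k) = dg k := hEMB.1
  have hone : ∀ x : 𝓞 k, x ≠ 0 → 1 ≤ Nr (x : k) := hEMB.2.2.2.2.2.2.2.2.2.1
  have hnr : ∀ (u : V2 k) (p : Pl k), 0 ≤ nr r p u := by
    intro u p
    unfold nr
    positivity
  have hnn : ∀ u : V2 k, 0 ≤ nn r u := fun u => Finset.prod_nonneg fun p _ => hnr u p
  have hb1 : ∀ x ∈ F, ∀ p : Pl k, |(dk k : ℝ)⁻¹ * rv p (hb x.2.2 v w : k) + bp v w p (μ p)| ≤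
      2 * η * Real.sqrt (nr r p v * nr r p w) := by
    intro x hx p
    rw [← bp_eq v w μ x.1 x.2.1 x.2.2 p]
    exact (hNRD r v w hr).2.2.2.2 _ p η hη.le ((dz1_le r _ p).trans (hF x hx))
  have hb2 : ∀ x ∈ F, ∀ y ∈ F, ∀ p : Pl k,
      |rv p ((hb x.2.2 v w : 𝓞 k) : k) - rv p (hb y.2.2 v w : k)| ≤
      4 * dk k * (η * Real.sqrt (nr r p v * nr r p w)) := by
    intro x hx y hy p
    have a1 := hb1 x hx p
    have a2 := hb1 y hy p
    rw [abs_le] at a1 a2
    have e : rv p ((hb x.2.2 v w : 𝓞 k) : k) - rv p (hb y.2.2 v w : k) =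
        dk k * (((dk k : ℝ)⁻¹ * rv p (hb x.2.2 v w : k) + bp v w p (μ p)) -
          ((dk k : ℝ)⁻¹ * rv p (hb y.2.2 v w : k) + bp v w p (μ p))) := by
      field_simp
      ring
    rw [e, abs_mul, abs_of_pos hd']
    have a3 : |((dk k : ℝ)⁻¹ * rv p (hb x.2.2 v w : k) + bp v w p (μ p)) -
          ((dk k : ℝ)⁻¹ * rv p (hb y.2.2 v w : k) + bp v w p (μ p))| ≤
        4 * (η * Real.sqrt (nr r p v * nr r p w)) := by
      rw [abs_le]
      constructor <;> linarith [a1.1, a1.2, a2.1, a2.2]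
    calc (dk k : ℝ) * _ ≤ dk k * (4 * (η * Real.sqrt (nr r p v * nr r p w))) :=
          mul_le_mul_of_nonneg_left a3 hd'.le
      _ = _ := by ring
  let G : Finset k := (F.image (fun x => hb x.2.2 v w)).image (fun a : 𝓞 k => (a : k))
  have hG : G.card = (F.image (fun x => hb x.2.2 v w)).card :=
    Finset.card_image_of_injective _ (fun a b h => RingOfIntegers.ext h)
  rw [← hG]
  have key := hBXC 1 (fun p => 4 * dk k * (η * Real.sqrt (nr r p v * nr r p w))) G one_pos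
    (fun p => by positivity) (by
      intro a ha b hb' hab
      obtain ⟨a', ha', rfl⟩ := Finset.mem_image.mp ha
      obtain ⟨b', hb'', rfl⟩ := Finset.mem_image.mp hb'
      obtain ⟨x, hx, rfl⟩ := Finset.mem_image.mp ha'
      obtain ⟨y, hy, rfl⟩ := Finset.mem_image.mp hb''
      refine ⟨?_, fun p => ?_⟩
      · have h3 := hone (hb x.2.2 v w - hb y.2.2 v w) (by
          intro h
          apply hab
          rw [sub_eq_zero.mp h])
        have e : ((hb x.2.2 v w - hb y.2.2 v w : 𝓞 k) : k) =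
            (hb x.2.2 v w : k) - (hb y.2.2 v w : k) := by simp
        rw [e] at h3
        exact h3
      · change |rv p ((hb x.2.2 v w : k) - (hb y.2.2 v w : k))| ≤ _
        rw [map_sub]
        exact hb2 x hx y hy p)
  refine key.trans ?_
  have e1 : (∏ p : Pl k, 4 * (dk k : ℝ) * (η * Real.sqrt (nr r p v * nr r p w))) =
      (4 * dk k) ^ dg k * (η ^ dg k * Real.sqrt (nn r v * nn r w)) := by
    rw [Finset.prod_mul_distrib, Finset.prod_const, Finset.card_univ, hcard,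
      Finset.prod_mul_distrib, Finset.prod_const, Finset.card_univ, hcard]
    congr 2
    rw [nn, nn, ← Finset.prod_mul_distrib, Real.sqrt_eq_rpow]
    simp_rw [Real.sqrt_eq_rpow]
    rw [← Real.finsetProd_rpow]
    intro p _
    exact mul_nonneg (hnr v p) (hnr w p)
  rw [e1]
  have e2 : η ^ dg k * Real.sqrt (nn r v * nn r w) ≤ Λ := by
    have h3 : η ^ dg k * Real.sqrt (nn r v * nn r w) =
        Real.sqrt ((η ^ dg k * nn r v) * (η ^ dg k * nn r w)) := by
      have h4 : (η ^ dg k * nn r v) * (η ^ dg k * nn r w) =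
          (η ^ dg k) ^ 2 * (nn r v * nn r w) := by ring
      rw [h4, Real.sqrt_mul (sq_nonneg (η ^ dg k)), Real.sqrt_sq (by positivity)]
    rw [h3]
    refine Real.sqrt_le_iff.mpr ⟨by linarith, ?_⟩
    rw [pow_two]
    exact mul_le_mul h1 h2 (mul_nonneg (by positivity) (hnn w)) (by linarith)
  rw [div_one]
  have h5 : (0 : ℝ) ≤ (4 * dk k) ^ dg k := by positivity
  have h6 : 1 + (4 * (dk k : ℝ)) ^ dg k * (η ^ dg k * Real.sqrt (nn r v * nn r w)) ≤
      (1 + (4 * dk k) ^ dg k) * Λ := by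
    nlinarith [mul_le_mul_of_nonneg_left e2 h5]
  calc C1 * _ ≤ C1 * ((1 + (4 * dk k) ^ dg k) * Λ) := mul_le_mul_of_nonneg_left h6 (by linarith)
    _ = _ := by ring

end

theorem alg1 (C3 s t x N : ℝ) (h : N = s * s) (hs : s ≠ 0) :
    C3 * (s * t) * (x / N) = C3 * x * t / s := by
  subst h
  field_simp

theorem pf_CNT (hEMB : T_EMB k) (hBXC : T_BXC k) (hNRD : T_NRD k) (hCLS : T_CLS k)
    (hCAB : T_CAB k) : T_CNT k := by
  classical
  intro C0
  obtain ⟨C1, hC1, h1⟩ := hBXC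
  obtain ⟨C2, hC2, h2⟩ := hCLS C0
  obtain ⟨C3, hC3, h3⟩ := hCAB
  have hd : 0 < dk k := hEMB.2.2.1
  refine ⟨C1 * (1 + (4 * dk k) ^ dg k) * C2 * C3 * (1 + C3), by positivity, ?_⟩
  intro r η Λ A B v w μ F hr hη hΛ hA hB hv hw hdet hΛv hΛw huni hF
  have hv0 : v ≠ 0 := by
    rintro rfl
    exact hdet (by simp [det])
  have hw0 : w ≠ 0 := by
    rintro rfl
    exact hdet (by simp [det])
  have hVp : 0 < nn r v := ((hNRD r v w hr).2.1 hv0).1
  have hWp : 0 < nn r w := ((hNRD r w v hr).2.1 hw0).1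
  have hND := (hNRD r v w hr).2.2.1
  have hNpos : 0 < Nr (det v w : k) := by
    have := hEMB.2.2.2.2.2.2.2.2.2.1 (det v w) hdet
    linarith
  set M3 := (C3 + C3 * η ^ dg k * A ^ 2 * Real.sqrt (nn r w) /
    (Nr (det v w : k) * Real.sqrt (nn r v))) * (1 + C3 * η ^ dg k * B ^ 2 / nn r w) with hM3
  have hM3p : 0 ≤ M3 := by positivity
  have s1 := card_le_fib F (fun x => hb x.2.2 v w) _ (C2 * Nr (det v w : k) * M3)
    (hval hEMB hNRD C1 hC1 h1 r η Λ v w μ F hr hη hΛ hΛv hΛw (fun x hx => (hF x hx).2.2))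
    (by positivity) (by
      intro h _
      refine card_le_fib _ (fun x => rep v w x.2.2) _ M3 ?_ hM3p ?_
      · refine h2 v w h _ hdet hv hw ?_ ?_
        · intro Z hZ
          obtain ⟨x, hx, rfl⟩ := Finset.mem_image.mp hZ
          rw [hb_rep]
          exact (Finset.mem_filter.mp hx).2
        · intro Z hZ Z' hZ' c c' hcc
          obtain ⟨x, _, rfl⟩ := Finset.mem_image.mp hZ
          obtain ⟨y, _, rfl⟩ := Finset.mem_image.mp hZ'
          exact rep_eq v w _ _ c c' hcc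
      · intro Z0 _
        refine fib2 hd C3 h3 r η A B v w μ _ hr hη hA hB hdet ?_ ?_ Z0 ?_
        · intro x hx y hy
          exact huni x (Finset.mem_filter.mp (Finset.mem_filter.mp hx).1).1 y
            (Finset.mem_filter.mp (Finset.mem_filter.mp hy).1).1
        · intro x hx
          exact hF x (Finset.mem_filter.mp (Finset.mem_filter.mp hx).1).1
        · intro x hx
          exact (Finset.mem_filter.mp hx).2)
  refine s1.trans ?_
  have hsv : 0 < Real.sqrt (nn r v) := Real.sqrt_pos.mpr hVp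
  have hsw : 0 < Real.sqrt (nn r w) := Real.sqrt_pos.mpr hWp
  have hsvw : Real.sqrt (nn r v * nn r w) = Real.sqrt (nn r v) * Real.sqrt (nn r w) :=
    Real.sqrt_mul hVp.le _
  have e1 : Nr (det v w : k) * (C3 + C3 * η ^ dg k * A ^ 2 * Real.sqrt (nn r w) /
      (Nr (det v w : k) * Real.sqrt (nn r v))) ≤
      C3 * Real.sqrt (nn r v * nn r w) * (1 + η ^ dg k * A ^ 2 / nn r v) := by
    have e2 : Nr (det v w : k) * (C3 + C3 * η ^ dg k * A ^ 2 * Real.sqrt (nn r w) /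
      (Nr (det v w : k) * Real.sqrt (nn r v))) = C3 * Nr (det v w : k) +
        C3 * η ^ dg k * A ^ 2 * Real.sqrt (nn r w) / Real.sqrt (nn r v) := by
      field_simp
    have e3 : C3 * Real.sqrt (nn r v * nn r w) * (1 + η ^ dg k * A ^ 2 / nn r v) =
        C3 * Real.sqrt (nn r v * nn r w) +
        C3 * (η ^ dg k * A ^ 2) * Real.sqrt (nn r w) / Real.sqrt (nn r v) := by
      rw [hsvw]
      have e4 : nn r v = Real.sqrt (nn r v) * Real.sqrt (nn r v) := (Real.mul_self_sqrt hVp.le).symm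
      rw [mul_add, mul_one]
      congr 1
      exact alg1 C3 _ _ _ _ e4 hsv.ne'
    rw [e2, e3]
    have h8 := mul_le_mul_of_nonneg_left hND hC3
    rw [← mul_assoc C3 (η ^ dg k) (A ^ 2)]
    linarith
  have e5 : 1 + C3 * η ^ dg k * B ^ 2 / nn r w ≤ (1 + C3) * (1 + η ^ dg k * B ^ 2 / nn r w) := by
    have h6 : 0 ≤ η ^ dg k * B ^ 2 / nn r w := by positivity
    have h7 : C3 * η ^ dg k * B ^ 2 / nn r w = C3 * (η ^ dg k * B ^ 2 / nn r w) := by ring
    rw [h7]
    nlinarith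
  calc C1 * (1 + (4 * (dk k : ℝ)) ^ dg k) * Λ * (C2 * Nr (det v w : k) * M3)
      = (C1 * (1 + (4 * dk k) ^ dg k) * Λ * C2) *
        ((Nr (det v w : k) * (C3 + C3 * η ^ dg k * A ^ 2 * Real.sqrt (nn r w) /
      (Nr (det v w : k) * Real.sqrt (nn r v)))) * (1 + C3 * η ^ dg k * B ^ 2 / nn r w)) := by
        rw [hM3]; ring
    _ ≤ (C1 * (1 + (4 * dk k) ^ dg k) * Λ * C2) *
        ((C3 * Real.sqrt (nn r v * nn r w) * (1 + η ^ dg k * A ^ 2 / nn r v)) *
          ((1 + C3) * (1 + η ^ dg k * B ^ 2 / nn r w))) := by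
        refine mul_le_mul_of_nonneg_left ?_ (by positivity)
        exact mul_le_mul e1 e5 (by positivity) (by positivity)
    _ = _ := by ring

end Pool.Agent.H65.CM4
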