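import Mathlib

/-!
# The fourth moment of the class group `L`-functions of the CM quadratic extensions of a totally real
field: definitions

`k` is a totally real number field. Vectors are pairs of algebraic integers of `k`, lattices are
submodules of `𝓞 k × 𝓞 k`, the form `Q = (a, b, c)` has the discriminant `- dsc Q`. All places of `k`
are real; `rv v` is the embedding of the place `v`.
-/

set_option autoImplicit false

open MeasureTheory Set Filter NumberField NumberField.InfinitePlace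
open scoped Real

namespace Pool.Agent.H65.CM4

section Base

variable (k : Type) [Field k] [NumberField k]

/-- vectors -/
abbrev V2 : Type := 𝓞 k × 𝓞 k

/-- lattices -/
abbrev La : Type := Submodule (𝓞 k) (𝓞 k × 𝓞 k)

/-- binary quadratic forms -/
abbrev QF : Type := 𝓞 k × 𝓞 k × 𝓞 k

/-- the places -/
abbrev Pl : Type := InfinitePlace k

/-- the degree -/
noncomputable def dg : ℕ := Module.finrank ℚ k

/-- the absolute value of the discriminant -/
noncomputable def dk : ℕ := (discr k).natAbs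

variable {k}

/-- the norm of an ideal -/
noncomputable def nm (I : Ideal (𝓞 k)) : ℝ := (Ideal.absNorm I : ℝ)

/-! ### Vectors and forms -/

/-- the value of the form `Q` -/
def val (Q : QF k) (u : V2 k) : 𝓞 k := Q.1 * u.1 ^ 2 + Q.2.1 * (u.1 * u.2) + Q.2.2 * u.2 ^ 2

/-- the form `(a, b, c)` has discriminant `- dsc (a, b, c)` -/
def dsc (Q : QF k) : 𝓞 k := 4 * (Q.1 * Q.2.2) - Q.2.1 ^ 2

/-- the determinant of two vectors -/
def det (u v : V2 k) : 𝓞 k := u.1 * v.2 - u.2 * v.1

/-- the vector `u` is prime to `I` -/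
def Cop (I : Ideal (𝓞 k)) (u : V2 k) : Prop := Ideal.span {u.1, u.2} ⊔ I = ⊤

/-- the lattice of the vectors parallel to `u` modulo `I` -/
def Lw (I : Ideal (𝓞 k)) (u : V2 k) : La k where
  carrier := {v | det u v ∈ I}
  zero_mem' := by simp [det]
  add_mem' := by
    intro a b ha hb
    have h : det u (a + b) = det u a + det u b := by simp only [det, Prod.fst_add, Prod.snd_add]; ring
    change det u (a + b) ∈ I
    rw [h]; exact I.add_mem ha hb
  smul_mem' := by
    intro c a ha
    have h : det u (c • a) = c * det u a := by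
      simp only [det, Prod.smul_fst, Prod.smul_snd, smul_eq_mul]; ring
    change det u (c • a) ∈ I
    rw [h]; exact I.mul_mem_left c ha

open Classical in
/-- the lattices of the lines modulo `I` -/
noncomputable def Ls (I : Ideal (𝓞 k)) : Finset (La k) :=
  if h : {L : La k | ∃ u : V2 k, Cop I u ∧ L = Lw I u}.Finite then h.toFinset else ∅

/-- `I` divides the values of `Q` on `L` -/
def Dv (I : Ideal (𝓞 k)) (L : La k) (Q : QF k) : Prop := ∀ u ∈ L, val Q u ∈ I

open Classical in
/-- the prime divisors of an ideal -/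
noncomputable def pf (I : Ideal (𝓞 k)) : Finset (Ideal (𝓞 k)) :=
  (UniqueFactorizationMonoid.normalizedFactors I).toFinset

open Classical in
/-- the product of the Ramanujan sums -/
noncomputable def Rn (I : Ideal (𝓞 k)) (L : La k) (Q : QF k) : ℝ :=
  ∏ P ∈ pf I, if Dv P L Q then nm P - 1 else -1

open Classical in
/-- the squarefree ideals prime to `b` of norm up to `A` -/
noncomputable def Sq (b : ℕ) (A : ℝ) : Finset (Ideal (𝓞 k)) :=
  if h : {I : Ideal (𝓞 k) | I ≠ ⊥ ∧ Squarefree I ∧ I ⊔ Ideal.span {(b : 𝓞 k)} = ⊤ ∧ nm I ≤ A}.Finite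
    then h.toFinset else ∅

/-- the index of a lattice -/
noncomputable def ix (M : La k) : ℕ := M.toAddSubgroup.index

/-- the multiple of the dual lattice -/
def du (M : La k) : La k where
  carrier := {u | ∀ v ∈ M, ((dk k * ix M : ℕ) : ℤ) ∣ Algebra.trace ℤ (𝓞 k) (det u v)}
  zero_mem' := by
    intro v _
    have h : det 0 v = 0 := by simp [det]
    rw [h, map_zero]; exact dvd_zero _
  add_mem' := by
    intro a b ha hb v hv
    have h : det (a + b) v = det a v + det b v := by
      simp only [det, Prod.fst_add, Prod.snd_add]; ring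
    rw [h, map_add]; exact dvd_add (ha v hv) (hb v hv)
  smul_mem' := by
    intro c a ha v hv
    have h : det (c • a) v = det a (c • v) := by
      simp only [det, Prod.smul_fst, Prod.smul_snd, smul_eq_mul]; ring
    change _ ∣ Algebra.trace ℤ (𝓞 k) (det (c • a) v)
    rw [h]; exact ha _ (M.smul_mem c hv)

variable (k) in
/-- representatives of the nonzero vectors modulo the units -/
noncomputable def Fo : Set (V2 k) :=
  {u | u ≠ 0 ∧ u = Quotient.out (Quotient.mk (MulAction.orbitRel (𝓞 k)ˣ (V2 k)) u)}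

/-! ### The kernel -/

/-- the Gamma factor, times `s (s - 1)` -/
noncomputable def gG (s : ℂ) : ℂ := s * (s - 1) * Complex.Gamma s * (2 * (π : ℂ)) ^ (-s)

/-- the kernel of the approximate functional equation -/
noncomputable def Kc (n : ℕ) (s r : ℂ) : ℂ :=
  ((1 / (2 * π) : ℝ) : ℂ) * ∫ t : ℝ, gG (2 + t * Complex.I) ^ n *
    (Complex.exp ((2 + t * Complex.I - s) ^ 2) / (2 + t * Complex.I - s)) *
      r ^ (-(2 + t * Complex.I))

end Base

section Real

variable {k : Type} [Field k] [NumberField k] [IsTotallyReal k]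

/-- the embedding of a place -/
noncomputable def rv (v : Pl k) : k →+* ℝ := embedding_of_isReal (IsTotallyReal.isReal v)

/-! ### Metrics -/

/-- the metric of the point `x + i y` at a place, with complex parameters -/
noncomputable def qc (x y : ℂ) (a b : ℝ) : ℂ := (((a : ℂ) + b * x) ^ 2 + ((b : ℂ) * y) ^ 2) / (2 * y)

/-- the product of the metrics of the places, with complex parameters -/
noncomputable def qn (x y : Pl k → ℂ) (u : V2 k) : ℂ :=
  ∏ v : Pl k, qc (x v) (y v) (rv v u.1) (rv v u.2)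

/-- the metric of the region with the parameter `r`, at a place -/
noncomputable def nr (r : ℝ) (v : Pl k) (u : V2 k) : ℝ :=
  rv v (u.1 : k) ^ 2 / r + r * rv v (u.2 : k) ^ 2

/-- the product of these metrics -/
noncomputable def nn (r : ℝ) (u : V2 k) : ℝ := ∏ v : Pl k, nr r v u

/-- the minimum on the nonzero vectors of a lattice -/
noncomputable def mn (r : ℝ) (L : La k) : ℝ := sInf (nn r '' {u | u ∈ L ∧ u ≠ 0})

variable (k) in
/-- real forms at the places -/
abbrev RF : Type := Pl k → ℝ × ℝ × ℝ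

/-- an integral form as a real form -/
noncomputable def rl (Q : QF k) : RF k := fun v => (rv v (Q.1 : k), rv v (Q.2.1 : k), rv v (Q.2.2 : k))

/-- the square of the distance of two real forms in the region with the parameter `r` -/
noncomputable def dq (r : ℝ) (P P' : RF k) : ℝ :=
  ∑ v : Pl k, ((r * ((P v).1 - (P' v).1)) ^ 2 + ((P v).2.1 - (P' v).2.1) ^ 2 +
    (((P v).2.2 - (P' v).2.2) / r) ^ 2)

/-- the positive real forms of the region with the parameters `y`, `r` -/
structure Gd (B y r : ℝ) (P : RF k) : Prop where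
  pos : ∀ v, 0 < (P v).1
  a : ∀ v, r * (P v).1 ≤ B * y
  b : ∀ v, |(P v).2.1| ≤ B * y
  c : ∀ v, (P v).2.2 ≤ B * y * r
  d : ∀ v, y ^ 2 / B ≤ 4 * (P v).1 * (P v).2.2 - (P v).2.1 ^ 2

/-- reduced pairs of a lattice and a form -/
structure Rd (b : ℕ) (B y : ℝ) (M : La k) (Q : QF k) : Prop where
  mem : ∀ u : V2 k, (b : 𝓞 k) • u ∈ M
  bal : ∃ h : ℝ, 0 < h ∧ h ≤ B * y ∧ ∀ v : Pl k, h / B ≤ rv v (Q.1 : k) ∧ rv v (Q.1 : k) ≤ B * h
  b : ∀ v : Pl k, |rv v (Q.2.1 : k)| ≤ B * rv v (Q.1 : k)
  d : ∀ v : Pl k, y ^ 2 / B ≤ rv v (dsc Q : k) ∧ rv v (dsc Q : k) ≤ B * y ^ 2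

/-! ### Epstein zeta functions -/

open Classical in
/-- the completed Epstein zeta function of the lattice `M` modulo the units, with complex parameters -/
noncomputable def Ec (s : ℂ) (M : La k) (x y : Pl k → ℂ) : ℂ :=
  (∑' u : V2 k, if u ∈ M ∧ u ∈ Fo k then Kc (dg k) s (qn x y u / ix M) else 0) +
    ((1 / dk k : ℝ) : ℂ) * ∑' u : V2 k, if u ∈ du M ∧ u ∈ Fo k then
      Kc (dg k) (1 - s) ((ix M : ℂ) * qn x y u / ((dk k * ix M : ℕ) : ℂ) ^ (2 * dg k)) else 0

/-- the completed Epstein zeta function, times a power of `s (s - 1)` -/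
noncomputable def Ez (s : ℂ) (M : La k) (x y : Pl k → ℝ) : ℂ :=
  Ec s M (fun v => (x v : ℂ)) (fun v => (y v : ℂ))

/-- the real part of the root of the form `Q` -/
noncomputable def zx (Q : QF k) : Pl k → ℝ := fun v => rv v (Q.2.1 : k) / (2 * rv v (Q.1 : k))

/-- the imaginary part of the root of the form `Q` -/
noncomputable def zy (Q : QF k) : Pl k → ℝ :=
  fun v => Real.sqrt (rv v (dsc Q : k)) / (2 * rv v (Q.1 : k))

open Classical in
/-- the twisted sum of the lattice `M` and the form `Q` -/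
noncomputable def Bf (s : ℂ) (α : Ideal (𝓞 k) → ℂ) (b : ℕ) (A : ℝ) (M : La k) (Q : QF k) : ℂ :=
  ∑ I ∈ Sq b A, α I * ∑ L ∈ (Ls I).filter (fun L => Dv I L Q), Ez s (M ⊓ L) (zx Q) (zy Q)

end Real

/-- the twisted second moment over the reduced forms: the interface between the parts 1, 2 and the
part 3 -/
def T_TM : Prop :=
  ∀ (k : Type) [Field k] [NumberField k] [IsTotallyReal k], ∃ b₀ : ℕ, 0 < b₀ ∧
    ∀ (b : ℕ) (B : ℝ), 0 < b → b₀ ∣ b → 1 ≤ B →
    ∀ ε : ℝ, 0 < ε → ∃ κ : ℝ, 0 < κ ∧ κ ≤ 1 / 8 ∧ ∃ δ : ℝ, 0 < δ ∧ ∃ (C : ℝ) (j : ℕ), 0 ≤ C ∧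
    ∀ (s : ℂ) (y A : ℝ) (α : Ideal (𝓞 k) → ℂ) (S : Finset (La k × QF k)),
      |s.re - 1 / 2| ≤ κ → 1 ≤ y → 1 ≤ A → A ≤ y ^ (dg k * (1 + δ)) → (∀ I, ‖α I‖ ≤ 1) →
      (∀ p ∈ S, Rd b B y p.1 p.2) →
      ∑ p ∈ S, ‖Bf s α b A p.1 p.2‖ ^ 2 ≤
        C * (1 + |s.im|) ^ j * Real.exp (-(π * dg k * |s.im|)) * y ^ (dg k * (3 + ε)) * A

end Pool.Agent.H65.CM4
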