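import Pool.Agent.H65.CM4.Targets1

/-!
# One more target of the part A
-/

set_option autoImplicit false

open MeasureTheory Set Filter NumberField NumberField.InfinitePlace
open scoped Real

namespace Pool.Agent.H65.CM4

section

variable (k : Type) [Field k] [NumberField k] [IsTotallyReal k]

/-- (RPC) the number of the fractions with a given denominator: the quotient of `J⁻¹` by the
integers has `absNorm J` elements. -/
def T_RPC : Prop :=
  ∀ (R : Ch k) (J : Ideal (𝓞 k)), J ≠ ⊥ → {a : k | a ∈ R.U ∧ J ≤ den a}.Finite ∧
    {a : k | a ∈ R.U ∧ J ≤ den a}.ncard = Ideal.absNorm J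

end

end Pool.Agent.H65.CM4
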